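import Pool.Agent.H27.T4.Stm
import Pool.Agent.H27.G.R_seed8.H987R2.RG_CLS

set_option autoImplicit false

/-! Project T4, task DEC: the structure of the real primitive characters. -/

namespace Pool.Agent.H27.T4

open Pool.Agent.N879.QM Pool.Agent.H987R2.RGCLS

theorem dec : S_DEC := by
  classical
  intro s q hq
  have hN : q ≠ 0 := by have := hq.1; omega
  have hch : Rp s (ch s q) := by
    unfold ch
    rw [dif_pos hq]
    exact hq.2.choose_spec
  set χ : DirichletCharacter ℂ q := ch s q with hχ
  have h1 : χ.IsPrimitive := hch.1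
  have h2 : χ ^ 2 = 1 := hch.2.1
  obtain ⟨k, M, hqM, hM, hsq, hk⟩ := level hN h1 h2
  have hcop : Nat.Coprime (2 ^ k) M := Nat.Coprime.pow_left k ((Nat.coprime_two_left).2 hM)
  have hcz : IsCoprime ((2 ^ k : ℕ) : ℤ) (M : ℤ) := Nat.isCoprime_iff_coprime.2 hcop
  have hqz : (q : ℤ) = ((2 ^ k : ℕ) : ℤ) * (M : ℤ) := by rw [hqM]; push_cast; ring
  have : NeZero (2 ^ k) := ⟨by positivity⟩
  refine ⟨2 ^ k, M, fun v => χ (((crt hcz (v.val : ℤ) 1).choose : ℤ) : ZMod q), hqM, ?_, hM, hsq, hcop, ?_, ?_⟩
  · rcases hk with h | h | h <;> subst h <;> norm_num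
  · intro v
    exact DirichletCharacter.norm_le_one χ _
  · intro n
    have hspec := (crt hcz (((n : ℤ) : ZMod (2 ^ k)).val : ℤ) 1).choose_spec
    set w : ℤ := (crt hcz (((n : ℤ) : ZMod (2 ^ k)).val : ℤ) 1).choose with hw
    change f χ n = f χ w * jj M n
    have hwn : ((2 ^ k : ℕ) : ℤ) ∣ w - n := by
      have e1 : ((2 ^ k : ℕ) : ℤ) ∣ (((n : ℤ) : ZMod (2 ^ k)).val : ℤ) - n := by
        rw [← ZMod.intCast_zmod_eq_zero_iff_dvd, Int.cast_sub, Int.cast_natCast, ZMod.natCast_val, ZMod.cast_id', id,
          sub_self]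
      have := dvd_add hspec.1 e1
      simpa using this
    by_cases hn : IsCoprime n (q : ℤ)
    · obtain ⟨u, hu1, hu2⟩ := crt hcz 1 n
      have hnK : IsCoprime n ((2 ^ k : ℕ) : ℤ) := by
        rw [hqz] at hn
        exact hn.of_mul_right_left
      have hnM : IsCoprime n (M : ℤ) := by
        rw [hqz] at hn
        exact hn.of_mul_right_right
      have huq : IsCoprime u (q : ℤ) := by
        rw [hqz]
        exact (cop_of_congr hu1 isCoprime_one_left).mul_right (cop_of_congr hu2 hnM)
      have huJ := oddpart (χ := χ) hN h1 h2 hqM hM hsq hcop M dvd_rfl (2 ^ k) (by rw [hqM]; ring) u hu1 huq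
      have hJ : jacobiSym u M = jacobiSym n M := J_congr hu2
      have hmul : f χ n = f χ (w * u) := by
        apply f_congr
        rw [hqz]
        refine hcz.mul_dvd ?_ ?_
        · have e : n - w * u = -((w - n) + w * (u - 1)) := by ring
          rw [e, dvd_neg]
          exact dvd_add hwn (hu1.mul_left w)
        · have e : n - w * u = -((u - n) + u * (w - 1)) := by ring
          rw [e, dvd_neg]
          exact dvd_add hu2 (hspec.2.mul_left u)
      rw [hmul, f_mul, huJ, hJ]
      rfl
    · rw [f_zero hn]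
      by_cases hnM : IsCoprime n (M : ℤ)
      · have hwq : ¬ IsCoprime w (q : ℤ) := by
          intro hc
          apply hn
          rw [hqz] at hc ⊢
          refine IsCoprime.mul_right ?_ hnM
          have h3 := hc.of_mul_right_left
          refine cop_of_congr (b := w) ?_ h3
          rw [← dvd_neg, neg_sub]
          exact hwn
        rw [f_zero hwq, zero_mul]
      · have : jacobiSym n M = 0 := (jacobiSym.eq_zero_iff).2 ⟨hM.pos.ne', by
          rwa [Int.isCoprime_iff_gcd_eq_one] at hnM⟩
        unfold jj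
        rw [this]
        simp

end Pool.Agent.H27.T4
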