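import Pool.Agent.H27.T4.Stm
import Pool.Agent.H27.G.R_seed8.H442R2.KF.Inc
import Pool.Agent.H27.G.R_seed8.H510R2.Div

set_option autoImplicit false

/-! Project T4, part INC (helper36): incomplete correlations by completion. -/

namespace Pool.Agent.H27.T4

namespace INC

theorem two_pow_omega_le (q : ℕ) (hq : q ≠ 0) : 2 ^ q.primeFactors.card ≤ q.divisors.card := by
  rw [Nat.card_divisors hq, ← Finset.prod_const]
  refine Finset.prod_le_prod' fun p hp => ?_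
  have h1 := (Nat.Prime.factorization_pos_of_dvd (Nat.prime_of_mem_primeFactors hp) hq
    (Nat.dvd_of_mem_primeFactors hp))
  omega

end INC

open Finset Pool.Agent.N879.QM

/-- INC -/
theorem inc : S_MIXQ → S_INC := by
  intro hM ε hε
  obtain ⟨C, hC, hD⟩ := Pool.Agent.H510R2.divisor_bound (ε / 2) (by positivity)
  refine ⟨8 * C * (2 + 1 / (ε / 2)), by positivity, ?_⟩
  intro s q h x t hs ht
  have hq2 : 2 ≤ q := hs.1
  have hq0 : q ≠ 0 := by omega
  have : NeZero q := ⟨hq0⟩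
  have hqr : (0 : ℝ) < q := by exact_mod_cast (by omega : 0 < q)
  have hq1 : (1 : ℝ) ≤ q := by exact_mod_cast (by omega : 1 ≤ q)
  obtain ⟨φ, hφ⟩ : ∃ φ : ZMod q → ℂ, φ = fun u => ch s q u * ch s q (u + (h : ZMod q)) := ⟨_, rfl⟩
  have hgcd : Nat.gcd (h : ZMod q).val q = Nat.gcd h q := by
    rw [ZMod.val_natCast, Nat.gcd_comm h q, Nat.gcd_rec q h]
  obtain ⟨W, hW⟩ : ∃ W : ℝ, W = 8 * 2 ^ q.primeFactors.card * √((q : ℝ) * (Nat.gcd h q : ℝ)) := ⟨_, rfl⟩
  have hW0 : 0 ≤ W := by rw [hW]; positivity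
  have hWb : ∀ w : ZMod q, ‖∑ u : ZMod q, ZMod.stdAddChar (-(u * w)) * φ u‖ ≤ W := by
    intro w
    have := hM s q (h : ZMod q) w hs
    rw [hgcd, ← hW] at this
    rw [hφ]
    exact this
  have hcomp := Pool.Agent.H442R2.KF.Inc.completion q 1 (Nat.coprime_one_right q) φ W hW0 hWb
    ((x : ℤ) + 1) t
  have hsum : ∑ n ∈ Ioc x (x + t), vl s q n * vl s q (n + h) =
      ∑ k ∈ range t, φ ((((x : ℤ) + 1 + ((1 : ℕ) : ℤ) * (k : ℤ) : ℤ)) : ZMod q) := by
    symm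
    refine sum_nbij (fun k => x + 1 + k) ?_ ?_ ?_ ?_
    · intro k hk
      rw [mem_range] at hk
      rw [mem_Ioc]
      omega
    · intro i _ j _ hij
      simpa using hij
    · intro n hn
      rw [coe_Ioc, Set.mem_Ioc] at hn
      refine ⟨n - (x + 1), ?_, ?_⟩
      · rw [coe_range, Set.mem_Iio]
        omega
      · show x + 1 + (n - (x + 1)) = n
        omega
    · intro k _
      rw [hφ]
      unfold vl
      push_cast
      simp only [one_mul]
  rw [hsum]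
  refine hcomp.trans ?_
  have h1 : (t : ℝ) / q ≤ 1 := by
    rw [div_le_one hqr]
    exact_mod_cast ht
  have h2 : Real.log q ≤ (q : ℝ) ^ (ε / 2) / (ε / 2) := Real.log_le_rpow_div hqr.le (by positivity)
  have h3 : 1 ≤ (q : ℝ) ^ (ε / 2) := Real.one_le_rpow hq1 (by positivity)
  have h4 : (t : ℝ) / q + 1 + Real.log q ≤ (2 + 1 / (ε / 2)) * (q : ℝ) ^ (ε / 2) := by
    have h5 : (2 + 1 / (ε / 2)) * (q : ℝ) ^ (ε / 2) = 2 * (q : ℝ) ^ (ε / 2) + (q : ℝ) ^ (ε / 2) / (ε / 2) := by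
      ring
    rw [h5]
    linarith
  have h6 : (2 : ℝ) ^ q.primeFactors.card ≤ C * (q : ℝ) ^ (ε / 2) := by
    have h7 : ((2 ^ q.primeFactors.card : ℕ) : ℝ) ≤ (q.divisors.card : ℝ) := by
      exact_mod_cast INC.two_pow_omega_le q hq0
    push_cast at h7
    exact h7.trans (hD q (by omega))
  have h8 : W ≤ 8 * (C * (q : ℝ) ^ (ε / 2)) * √((q : ℝ) * (Nat.gcd h q : ℝ)) := by
    rw [hW]
    gcongr
  have h9 : (q : ℝ) ^ ε = (q : ℝ) ^ (ε / 2) * (q : ℝ) ^ (ε / 2) := by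
    rw [← Real.rpow_add hqr]
    congr 1
    ring
  have h10 : 0 ≤ (t : ℝ) / q + 1 + Real.log q := by
    have := Real.log_nonneg hq1
    positivity
  calc W * ((t : ℝ) / q + 1 + Real.log q) ≤
        (8 * (C * (q : ℝ) ^ (ε / 2)) * √((q : ℝ) * (Nat.gcd h q : ℝ))) *
          ((2 + 1 / (ε / 2)) * (q : ℝ) ^ (ε / 2)) := by gcongr
    _ = _ := by rw [h9]; ring

end Pool.Agent.H27.T4
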