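import Pool.Agent.H27.T4.Stm
import Pool.Agent.H27.G.R_seed8.H442R2.KF.Weil

set_option autoImplicit false

/-! Project T4, part MIXM (helper36): mixed sums modulo odd squarefree numbers. -/

namespace Pool.Agent.H27.T4

namespace MIXM

open Finset
open Pool.Agent.H442R2.KF.TaskB (char_crt)

/-- the Jacobi symbol as a function of the residue class -/
noncomputable def J (M : ℕ) (u : ZMod M) : ℂ := jj M (u.val : ℤ)

theorem jj_cast (M : ℕ) [NeZero M] (n : ℤ) : jj M n = J M (n : ZMod M) := by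
  unfold J jj
  rw [ZMod.val_intCast, ← jacobiSym.mod_left]

theorem norm_J (M : ℕ) (u : ZMod M) : ‖J M u‖ ≤ 1 := by
  unfold J jj
  rcases jacobiSym.trichotomy (u.val : ℤ) M with h | h | h <;> rw [h] <;> simp

theorem J_mul (q1 q2 : ℕ) [NeZero q1] [NeZero q2] [NeZero (q1 * q2)] (h : Nat.Coprime q1 q2)
    (z : ZMod (q1 * q2)) :
    J (q1 * q2) z = J q1 (ZMod.chineseRemainder h z).1 * J q2 (ZMod.chineseRemainder h z).2 := by
  obtain ⟨j, rfl⟩ := ZMod.intCast_surjective z
  have e : ZMod.chineseRemainder h ((j : ℤ) : ZMod (q1 * q2)) = ((j : ZMod q1), (j : ZMod q2)) := by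
    rw [map_intCast]
    rfl
  rw [e]
  dsimp only
  rw [← jj_cast, ← jj_cast, ← jj_cast]
  unfold jj
  rw [jacobiSym.mul_right]
  push_cast
  rfl

/-- the mixed sum -/
noncomputable def T (M : ℕ) [NeZero M] (h w : ZMod M) : ℂ :=
  ∑ u : ZMod M, ZMod.stdAddChar (-(u * w)) * (J M u * J M (u + h))

theorem T_mul (q1 q2 : ℕ) [NeZero q1] [NeZero q2] [NeZero (q1 * q2)] (hc : Nat.Coprime q1 q2)
    (α β : ℤ) (hαβ : α * q2 + β * q1 = 1) (h w : ZMod (q1 * q2)) :
    T (q1 * q2) h w =
      T q1 (ZMod.chineseRemainder hc h).1 ((α : ZMod q1) * (ZMod.chineseRemainder hc w).1) *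
      T q2 (ZMod.chineseRemainder hc h).2 ((β : ZMod q2) * (ZMod.chineseRemainder hc w).2) := by
  unfold T
  rw [Finset.sum_mul_sum, ← Fintype.sum_prod_type', ← Equiv.sum_comp (ZMod.chineseRemainder hc).toEquiv]
  refine Finset.sum_congr rfl fun u _ => ?_
  have hu : (ZMod.chineseRemainder hc).toEquiv u = ZMod.chineseRemainder hc u := rfl
  rw [hu, char_crt q1 q2 hc α β hαβ, J_mul q1 q2 hc u, J_mul q1 q2 hc (u + h)]
  simp only [map_neg, map_mul, map_add, Prod.fst_neg, Prod.snd_neg, Prod.fst_mul, Prod.snd_mul,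
    Prod.fst_add, Prod.snd_add]
  have e1 : (α : ZMod q1) * -((ZMod.chineseRemainder hc u).1 * (ZMod.chineseRemainder hc w).1) =
      -((ZMod.chineseRemainder hc u).1 * ((α : ZMod q1) * (ZMod.chineseRemainder hc w).1)) := by ring
  have e2 : (β : ZMod q2) * -((ZMod.chineseRemainder hc u).2 * (ZMod.chineseRemainder hc w).2) =
      -((ZMod.chineseRemainder hc u).2 * ((β : ZMod q2) * (ZMod.chineseRemainder hc w).2)) := by ring
  rw [e1, e2]
  ring

theorem T_triv (M : ℕ) [NeZero M] (h w : ZMod M) : ‖T M h w‖ ≤ M := by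
  unfold T
  refine (norm_sum_le _ _).trans ?_
  have h2 : ∀ u ∈ (Finset.univ : Finset (ZMod M)),
      ‖ZMod.stdAddChar (-(u * w)) * (J M u * J M (u + h))‖ ≤ 1 := by
    intro u _
    rw [norm_mul, norm_mul, ZMod.stdAddChar_apply, Circle.norm_coe, one_mul]
    exact mul_le_one₀ (norm_J _ _) (norm_nonneg _) (norm_J _ _)
  refine (Finset.sum_le_sum h2).trans ?_
  rw [Finset.sum_const, Finset.card_univ, ZMod.card]
  simp

theorem J_prime (p : ℕ) [Fact p.Prime] (u : ZMod p) :
    J p u = ((quadraticChar (ZMod p) u : ℤ) : ℂ) := by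
  unfold J jj
  rw [← jacobiSym.legendreSym.to_jacobiSym, legendreSym]
  simp

theorem T_prime (hP : S_MIXP) (p : ℕ) [Fact p.Prime] (hp2 : p ≠ 2) (h : ℤ) (w : ZMod p) :
    ‖T p (h : ZMod p) w‖ ≤ 2 * √((p : ℝ) * (Int.gcd h p : ℝ)) := by
  have hp : p.Prime := Fact.out
  by_cases h0 : (h : ZMod p) = 0
  · have h1 : (p : ℤ) ∣ h := (ZMod.intCast_zmod_eq_zero_iff_dvd h p).1 h0
    have h2 : Int.gcd h p = p := by
      have h3 : p ∣ h.natAbs := Int.natCast_dvd.1 h1
      have h4 : Nat.gcd h.natAbs p = p := Nat.gcd_eq_right h3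
      simpa [Int.gcd] using h4
    rw [h2, Real.sqrt_mul_self (by positivity)]
    have h3 := T_triv p (h : ZMod p) w
    have h4 : (0 : ℝ) ≤ p := by positivity
    linarith
  · have h1 : Int.gcd h p = 1 := by
      have h2 : ¬ (p : ℤ) ∣ h := fun hd => h0 ((ZMod.intCast_zmod_eq_zero_iff_dvd h p).2 hd)
      rw [Int.gcd_comm, ← Int.isCoprime_iff_gcd_eq_one, Prime.coprime_iff_not_dvd (Nat.prime_iff_prime_int.1 hp)]
      exact h2
    rw [h1]
    have h3 := hP p (h : ZMod p) w hp2 h0
    unfold T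
    simp only [J_prime]
    simpa using h3

theorem T_sf (hP : S_MIXP) (M : ℕ) : ∀ [NeZero M], Odd M → Squarefree M → ∀ (h : ℤ) (w : ZMod M),
    ‖T M (h : ZMod M) w‖ ≤ 2 ^ M.primeFactors.card * √((M : ℝ) * (Int.gcd h M : ℝ)) := by
  induction M using Nat.strong_induction_on with
  | _ q ih =>
    intro _ hodd hq h w
    by_cases h1 : q = 1
    · subst h1
      refine (T_triv 1 _ _).trans ?_
      simp
    · have hq0 : q ≠ 0 := NeZero.ne q
      have hp : (q.minFac).Prime := Nat.minFac_prime h1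
      obtain ⟨q', hq'⟩ := Nat.minFac_dvd q
      generalize q.minFac = p at hp hq'
      subst hq'
      have : Fact p.Prime := ⟨hp⟩
      have hq'0 : q' ≠ 0 := fun h => hq0 (by rw [h, mul_zero])
      have : NeZero q' := ⟨hq'0⟩
      rw [Nat.odd_mul] at hodd
      have hp2 : p ≠ 2 := by
        rintro rfl
        exact absurd hodd.1 (by decide)
      have hcop : Nat.Coprime p q' := Nat.coprime_of_squarefree_mul hq
      have hsq' : Squarefree q' := hq.squarefree_of_dvd (Dvd.intro_left p rfl)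
      obtain ⟨α, β, hαβ⟩ : ∃ α β : ℤ, α * q' + β * p = 1 := by
        have h2 : IsCoprime (q' : ℤ) (p : ℤ) := Nat.isCoprime_iff_coprime.mpr hcop.symm
        obtain ⟨a, b, hab⟩ := h2
        exact ⟨a, b, hab⟩
      have hlt : q' < p * q' := by
        have := hp.two_le
        have h3 : 0 < q' := Nat.pos_of_ne_zero hq'0
        nlinarith
      have e : ZMod.chineseRemainder hcop ((h : ℤ) : ZMod (p * q')) = ((h : ZMod p), (h : ZMod q')) := by
        rw [map_intCast]
        rfl
      rw [T_mul p q' hcop α β hαβ, norm_mul, e]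
      dsimp only
      have b1 := T_prime hP p hp2 h ((α : ZMod p) * (ZMod.chineseRemainder hcop w).1)
      have b2 := ih q' hlt hodd.2 hsq' h ((β : ZMod q') * (ZMod.chineseRemainder hcop w).2)
      have hcard : (p * q').primeFactors.card = 1 + q'.primeFactors.card := by
        rw [hcop.primeFactors_mul, Finset.card_union_of_disjoint hcop.disjoint_primeFactors,
          hp.primeFactors, Finset.card_singleton]
      have hg : Int.gcd h ((p * q' : ℕ) : ℤ) = Int.gcd h p * Int.gcd h q' := by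
        have := Nat.Coprime.gcd_mul h.natAbs hcop
        simpa [Int.gcd, Int.natAbs_mul] using this
      rw [hcard, hg]
      have h5 : √(((p * q' : ℕ) : ℝ) * ((Int.gcd h p * Int.gcd h q' : ℕ) : ℝ)) =
          √((p : ℝ) * (Int.gcd h p : ℝ)) * √((q' : ℝ) * (Int.gcd h q' : ℝ)) := by
        rw [← Real.sqrt_mul (by positivity)]
        congr 1
        push_cast
        ring
      rw [h5]
      calc _ ≤ (2 * √((p : ℝ) * (Int.gcd h p : ℝ))) *
            (2 ^ q'.primeFactors.card * √((q' : ℝ) * (Int.gcd h q' : ℝ))) :=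
            mul_le_mul b1 b2 (norm_nonneg _) (by positivity)
        _ = _ := by rw [pow_add]; ring

end MIXM

/-- MIXM -/
theorem mixm : S_MIXP → S_MIXM := by
  intro hP M _ h w hodd hsq
  have h1 := MIXM.T_sf hP M hodd hsq h w
  have h2 : MIXM.T M (h : ZMod M) w =
      ∑ u : ZMod M, ZMod.stdAddChar (-(u * w)) * (jj M (u.val : ℤ) * jj M ((u.val : ℤ) + h)) := by
    unfold MIXM.T
    refine Finset.sum_congr rfl fun u _ => ?_
    have h3 : jj M ((u.val : ℤ) + h) = MIXM.J M (u + (h : ZMod M)) := by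
      rw [MIXM.jj_cast]
      push_cast
      rw [ZMod.natCast_zmod_val]
    rw [h3]
    rfl
  rw [← h2]
  exact h1

end Pool.Agent.H27.T4
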