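import Pool.Agent.H27.T4.Stm
import Pool.Agent.H27.G.R_seed8.H498R2.KlWeil

set_option autoImplicit false

/-! Project T4, task MIXP: the mixed sum modulo a prime. -/

namespace Pool.Agent.H27.T4

open Finset
open scoped BigOperators

lemma mixp_param {F : Type*} [Field F] [Fintype F] [DecidableEq F] (h2 : (2 : F) ≠ 0) {h : F} (hh : h ≠ 0)
    (ψ : F → ℂ) :
    ∑ q ∈ (univ : Finset (F × F)).filter (fun q => q.2 ^ 2 = q.1 ^ 2 + h * q.1), ψ q.1 =
      ∑ a : Fˣ, ψ (((a : F) + h ^ 2 * ((a⁻¹ : Fˣ) : F) - 2 * h) / 4) := by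
  have h4 : (4 : F) ≠ 0 := by
    have : (4 : F) = 2 * 2 := by norm_num
    rw [this]
    exact mul_ne_zero h2 h2
  have key : ∀ q : F × F, q.2 ^ 2 = q.1 ^ 2 + h * q.1 →
      (2 * q.1 + h - 2 * q.2) * (2 * q.1 + h + 2 * q.2) = h ^ 2 := by
    intro q hq
    linear_combination (-4) * hq
  have hne : ∀ q : F × F, q.2 ^ 2 = q.1 ^ 2 + h * q.1 → 2 * q.1 + h - 2 * q.2 ≠ 0 := by
    intro q hq h0
    have := key q hq
    rw [h0, zero_mul] at this
    exact pow_ne_zero 2 hh this.symm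
  refine Finset.sum_bij' (fun q hq => Units.mk0 (2 * q.1 + h - 2 * q.2) (hne q (mem_filter.1 hq).2))
    (fun a _ => (((a : F) + h ^ 2 * ((a⁻¹ : Fˣ) : F) - 2 * h) / 4, (h ^ 2 * ((a⁻¹ : Fˣ) : F) - (a : F)) / 4))
    (fun _ _ => mem_univ _) ?_ ?_ ?_ ?_
  · intro a _
    rw [mem_filter]
    refine ⟨mem_univ _, ?_⟩
    have ha : (a : F) ≠ 0 := a.ne_zero
    simp only [Units.val_inv_eq_inv_val]
    field_simp
    ring
  · intro q hq
    have hk := key q (mem_filter.1 hq).2
    have hn := hne q (mem_filter.1 hq).2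
    have e : h ^ 2 * (2 * q.1 + h - 2 * q.2)⁻¹ = 2 * q.1 + h + 2 * q.2 := by
      rw [← hk]
      field_simp
    ext
    · simp only [Units.val_inv_eq_inv_val, Units.val_mk0, e]
      rw [div_eq_iff h4]
      ring
    · simp only [Units.val_inv_eq_inv_val, Units.val_mk0, e]
      rw [div_eq_iff h4]
      ring
  · intro a _
    ext
    simp only [Units.val_mk0]
    field_simp
    ring
  · intro q hq
    have hk := key q (mem_filter.1 hq).2
    have hn := hne q (mem_filter.1 hq).2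
    have e : h ^ 2 * (2 * q.1 + h - 2 * q.2)⁻¹ = 2 * q.1 + h + 2 * q.2 := by
      rw [← hk]
      field_simp
    simp only [Units.val_inv_eq_inv_val, Units.val_mk0, e]
    congr 1
    rw [eq_div_iff h4]
    ring

theorem mixp : S_MIXP := by
  intro p _ h w hp2 hh
  classical
  have hp : p.Prime := Fact.out
  have hp3 : (3 : ℝ) ≤ p := by
    have := hp.two_le
    have h3 : 3 ≤ p := by omega
    exact_mod_cast h3
  have hF : ringChar (ZMod p) ≠ 2 := by rwa [ZMod.ringChar_zmod_n]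
  have h2 : (2 : ZMod p) ≠ 0 := Ring.two_ne_zero hF
  have h4 : (4 : ZMod p) ≠ 0 := by
    have : (4 : ZMod p) = 2 * 2 := by norm_num
    rw [this]
    exact mul_ne_zero h2 h2
  set e : AddChar (ZMod p) ℂ := ZMod.stdAddChar with he
  have hprim : e.IsPrimitive := ZMod.isPrimitive_stdAddChar p
  -- counting square roots
  have hcount : ∀ u : ZMod p, ((quadraticChar (ZMod p) u : ℤ) : ℂ) * ((quadraticChar (ZMod p) (u + h) : ℤ) : ℂ) =
      (((univ : Finset (ZMod p)).filter (fun y => y ^ 2 = u ^ 2 + h * u)).card : ℂ) - 1 := by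
    intro u
    have h5 := quadraticChar_card_sqrts hF (u ^ 2 + h * u)
    have h6 : {x : ZMod p | x ^ 2 = u ^ 2 + h * u}.toFinset =
        (univ : Finset (ZMod p)).filter (fun y => y ^ 2 = u ^ 2 + h * u) := by
      ext y
      simp
    rw [h6] at h5
    have h7 : u ^ 2 + h * u = u * (u + h) := by ring
    have h8 : (((univ : Finset (ZMod p)).filter (fun y => y ^ 2 = u ^ 2 + h * u)).card : ℂ) =
        ((quadraticChar (ZMod p) (u * (u + h)) : ℤ) : ℂ) + 1 := by
      rw [← h7]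
      exact_mod_cast h5
    rw [h8, map_mul]
    push_cast
    ring
  have hsum : ∑ u : ZMod p, e (-(u * w)) *
      (((quadraticChar (ZMod p) u : ℤ) : ℂ) * ((quadraticChar (ZMod p) (u + h) : ℤ) : ℂ)) =
      ∑ a : (ZMod p)ˣ, e (-(((a : ZMod p) + h ^ 2 * ((a⁻¹ : (ZMod p)ˣ) : ZMod p) - 2 * h) / 4 * w)) -
        ∑ u : ZMod p, e (-(u * w)) := by
    rw [← mixp_param h2 hh (fun u => e (-(u * w))), Finset.sum_filter, ← Finset.univ_product_univ, Finset.sum_product]
    rw [← Finset.sum_sub_distrib]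
    refine Finset.sum_congr rfl fun u _ => ?_
    rw [hcount, ← Finset.sum_filter]
    simp only [Finset.sum_const, nsmul_eq_mul]
    ring
  rw [hsum]
  by_cases hw : w = 0
  · subst hw
    simp only [mul_zero, neg_zero, AddChar.map_zero_eq_one, Finset.sum_const, Finset.card_univ, nsmul_eq_mul, mul_one,
      ZMod.card, ZMod.card_units p]
    have h9 : (((p - 1 : ℕ) : ℂ) - (p : ℂ)) = -1 := by
      rw [Nat.cast_sub hp.one_lt.le]
      simp
    rw [h9, norm_neg, norm_one]
    have : 1 ≤ √(p : ℝ) := by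
      rw [Real.one_le_sqrt]
      linarith
    linarith
  · have h10 : ∑ u : ZMod p, e (-(u * w)) = 0 := by
      have h11 := AddChar.sum_eq_zero_of_ne_one (hprim (neg_ne_zero.2 hw))
      rw [← h11]
      refine Finset.sum_congr rfl fun u _ => ?_
      rw [AddChar.mulShift_apply]
      congr 1
      ring
    rw [h10, sub_zero]
    have h12 : ∑ a : (ZMod p)ˣ, e (-(((a : ZMod p) + h ^ 2 * ((a⁻¹ : (ZMod p)ˣ) : ZMod p) - 2 * h) / 4 * w)) =
        e (2 * h * w / 4) * ∑ a : (ZMod p)ˣ, e ((-w / 4) * (a : ZMod p) + (-w * h ^ 2 / 4) *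
          ((a⁻¹ : (ZMod p)ˣ) : ZMod p)) := by
      rw [Finset.mul_sum]
      refine Finset.sum_congr rfl fun a _ => ?_
      rw [← AddChar.map_add_eq_mul]
      congr 1
      field_simp
      ring
    rw [h12, norm_mul, AddChar.norm_apply, one_mul]
    have h13 := Pool.Agent.H498R2.Kl.kloosterman_units_le (F := ZMod p) hF hprim (a := -w / 4) (b := -w * h ^ 2 / 4)
      (div_ne_zero (neg_ne_zero.2 hw) h4) (div_ne_zero (mul_ne_zero (neg_ne_zero.2 hw) (pow_ne_zero 2 hh)) h4)
    rw [ZMod.card] at h13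
    exact h13

end Pool.Agent.H27.T4
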