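import Pool.Agent.H27.T4.MIXM

set_option autoImplicit false

/-! Project T4, part MIXQ (helper36): mixed sums modulo the conductor. -/

namespace Pool.Agent.H27.T4

namespace MIXQ

open Finset
open Pool.Agent.H442R2.KF.TaskB (char_crt)
open MIXM (J T jj_cast)

theorem T_eq (M : ℕ) [NeZero M] (h : ℤ) (w : ZMod M) : T M (h : ZMod M) w =
    ∑ u : ZMod M, ZMod.stdAddChar (-(u * w)) * (jj M (u.val : ℤ) * jj M ((u.val : ℤ) + h)) := by
  unfold MIXM.T
  refine Finset.sum_congr rfl fun u _ => ?_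
  have h3 : jj M ((u.val : ℤ) + h) = MIXM.J M (u + (h : ZMod M)) := by
    rw [MIXM.jj_cast]
    push_cast
    rw [ZMod.natCast_zmod_val]
  rw [h3]
  rfl

/-- general form -/
theorem gen (K M : ℕ) [NeZero (K * M)] (hc : Nat.Coprime K M) (hK : K ∣ 8) (c : ZMod (K * M) → ℂ)
    (ψ : ZMod K → ℂ) (hψ : ∀ v, ‖ψ v‖ ≤ 1)
    (hch : ∀ n : ℤ, c (n : ZMod (K * M)) = ψ (n : ZMod K) * jj M n) (B : ℝ)
    (hT : ∀ [NeZero M], ∀ (h : ℤ) (w : ZMod M), ‖T M (h : ZMod M) w‖ ≤ B * √((M : ℝ) * (Int.gcd h M : ℝ)))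
    (hB : 0 ≤ B) (h w : ZMod (K * M)) :
    ‖∑ u : ZMod (K * M), ZMod.stdAddChar (-(u * w)) * (c u * c (u + h))‖ ≤
      8 * B * √(((K * M : ℕ) : ℝ) * (Nat.gcd h.val (K * M) : ℝ)) := by
  have hq0 : K * M ≠ 0 := NeZero.ne _
  have hK0 : K ≠ 0 := fun h => hq0 (by rw [h, zero_mul])
  have hM0 : M ≠ 0 := fun h => hq0 (by rw [h, mul_zero])
  have : NeZero K := ⟨hK0⟩
  have : NeZero M := ⟨hM0⟩
  obtain ⟨α, β, hαβ⟩ : ∃ α β : ℤ, α * M + β * K = 1 := by
    have h2 : IsCoprime (M : ℤ) (K : ℤ) := Nat.isCoprime_iff_coprime.mpr hc.symm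
    obtain ⟨a, b, hab⟩ := h2
    exact ⟨a, b, hab⟩
  have hc' : ∀ z : ZMod (K * M), c z = ψ (ZMod.chineseRemainder hc z).1 * J M (ZMod.chineseRemainder hc z).2 := by
    intro z
    obtain ⟨j, rfl⟩ := ZMod.intCast_surjective z
    have e : ZMod.chineseRemainder hc ((j : ℤ) : ZMod (K * M)) = ((j : ZMod K), (j : ZMod M)) := by
      rw [map_intCast]
      rfl
    rw [e, hch]
    dsimp only
    rw [← jj_cast]
  have hsum : ∑ u : ZMod (K * M), ZMod.stdAddChar (-(u * w)) * (c u * c (u + h)) =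
      (∑ v : ZMod K, ZMod.stdAddChar (-(v * ((α : ZMod K) * (ZMod.chineseRemainder hc w).1))) *
        (ψ v * ψ (v + (ZMod.chineseRemainder hc h).1))) *
      T M (ZMod.chineseRemainder hc h).2 ((β : ZMod M) * (ZMod.chineseRemainder hc w).2) := by
    unfold MIXM.T
    rw [Finset.sum_mul_sum, ← Fintype.sum_prod_type', ← Equiv.sum_comp (ZMod.chineseRemainder hc).toEquiv]
    refine Finset.sum_congr rfl fun u _ => ?_
    have hu : (ZMod.chineseRemainder hc).toEquiv u = ZMod.chineseRemainder hc u := rfl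
    rw [hu, char_crt K M hc α β hαβ, hc' u, hc' (u + h)]
    simp only [map_neg, map_mul, map_add, Prod.fst_neg, Prod.snd_neg, Prod.fst_mul, Prod.snd_mul,
      Prod.fst_add, Prod.snd_add]
    have e1 : (α : ZMod K) * -((ZMod.chineseRemainder hc u).1 * (ZMod.chineseRemainder hc w).1) =
        -((ZMod.chineseRemainder hc u).1 * ((α : ZMod K) * (ZMod.chineseRemainder hc w).1)) := by ring
    have e2 : (β : ZMod M) * -((ZMod.chineseRemainder hc u).2 * (ZMod.chineseRemainder hc w).2) =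
        -((ZMod.chineseRemainder hc u).2 * ((β : ZMod M) * (ZMod.chineseRemainder hc w).2)) := by ring
    rw [e1, e2]
    ring
  have hfirst : ‖∑ v : ZMod K, ZMod.stdAddChar (-(v * ((α : ZMod K) * (ZMod.chineseRemainder hc w).1))) *
        (ψ v * ψ (v + (ZMod.chineseRemainder hc h).1))‖ ≤ 8 := by
    refine (norm_sum_le _ _).trans ?_
    have h2 : ∀ v ∈ (Finset.univ : Finset (ZMod K)),
        ‖ZMod.stdAddChar (-(v * ((α : ZMod K) * (ZMod.chineseRemainder hc w).1))) *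
        (ψ v * ψ (v + (ZMod.chineseRemainder hc h).1))‖ ≤ 1 := by
      intro u _
      rw [norm_mul, norm_mul, ZMod.stdAddChar_apply, Circle.norm_coe, one_mul]
      exact mul_le_one₀ (hψ _) (norm_nonneg _) (hψ _)
    refine (Finset.sum_le_sum h2).trans ?_
    rw [Finset.sum_const, Finset.card_univ, ZMod.card]
    have : K ≤ 8 := Nat.le_of_dvd (by norm_num) hK
    have : (K : ℝ) ≤ 8 := by exact_mod_cast this
    simpa using this
  have hh : (ZMod.chineseRemainder hc h).2 = (((h.val : ℕ) : ℤ) : ZMod M) := by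
    conv_lhs => rw [← ZMod.natCast_zmod_val h]
    rw [map_natCast]
    simp
  have hsecond : ‖T M (ZMod.chineseRemainder hc h).2 ((β : ZMod M) * (ZMod.chineseRemainder hc w).2)‖ ≤
      B * √(((K * M : ℕ) : ℝ) * (Nat.gcd h.val (K * M) : ℝ)) := by
    rw [hh]
    refine (hT _ _).trans ?_
    refine mul_le_mul_of_nonneg_left ?_ hB
    apply Real.sqrt_le_sqrt
    have h3 : M ≤ K * M := Nat.le_mul_of_pos_left _ (Nat.pos_of_ne_zero hK0)
    have h4 : Int.gcd ((h.val : ℕ) : ℤ) (M : ℤ) ≤ Nat.gcd h.val (K * M) := by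
      rw [Int.gcd_natCast_natCast]
      apply Nat.le_of_dvd
      · exact Nat.gcd_pos_of_pos_right _ (Nat.pos_of_ne_zero hq0)
      · exact Nat.gcd_dvd_gcd_mul_left_right _ _ _
    have h3' : (M : ℝ) ≤ ((K * M : ℕ) : ℝ) := by exact_mod_cast h3
    have h4' : (Int.gcd ((h.val : ℕ) : ℤ) (M : ℤ) : ℝ) ≤ (Nat.gcd h.val (K * M) : ℝ) := by exact_mod_cast h4
    gcongr
  rw [hsum, norm_mul]
  calc _ ≤ 8 * (B * √(((K * M : ℕ) : ℝ) * (Nat.gcd h.val (K * M) : ℝ))) :=
        mul_le_mul hfirst hsecond (norm_nonneg _) (by norm_num)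
    _ = _ := by ring

end MIXQ

open Pool.Agent.N879.QM

/-- MIXQ -/
theorem mixq : S_DEC → S_MIXM → S_MIXQ := by
  intro hD hM s q hq h w hs
  obtain ⟨K, M, ψ, hKM, hK, hodd, hsf, hcop, hψ, hch⟩ := hD s q hs
  obtain ⟨c, hc⟩ : ∃ c : ZMod q → ℂ, c = fun u => ch s q u := ⟨_, rfl⟩
  have hch' : ∀ n : ℤ, c (n : ZMod q) = ψ (n : ZMod K) * jj M n := by
    intro n
    rw [hc]
    exact hch n
  have hgoal : ‖∑ u : ZMod q, ZMod.stdAddChar (-(u * w)) * (c u * c (u + h))‖ ≤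
      8 * 2 ^ q.primeFactors.card * √((q : ℝ) * (Nat.gcd h.val q : ℝ)) := by
    clear hc hch
    subst hKM
    have hq0 : K * M ≠ 0 := hq.out
    refine MIXQ.gen K M hcop hK c ψ hψ hch' (2 ^ (K * M).primeFactors.card) ?_ (by positivity) h w
    intro _ h' w'
    rw [MIXQ.T_eq]
    refine (hM M h' w' hodd hsf).trans ?_
    have h1 : M.primeFactors.card ≤ (K * M).primeFactors.card :=
      Finset.card_le_card (Nat.primeFactors_mono (Dvd.intro_left _ rfl) hq0)
    have h2 : (2 : ℝ) ^ M.primeFactors.card ≤ 2 ^ (K * M).primeFactors.card :=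
      pow_le_pow_right₀ (by norm_num) h1
    gcongr
  rw [hc] at hgoal
  exact hgoal

end Pool.Agent.H27.T4
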