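import Pool.Agent.H27.T4.Stm
import Pool.Agent.H27.G.R_seed8.H510R2.Div

set_option autoImplicit false

/-! Project T4, part SKW (helper36): dyadic pieces, from short blocks and incomplete correlations. -/

namespace Pool.Agent.H27.T4

namespace SKW

open Complex MeasureTheory Finset Pool.Agent.N879.QM
open scoped BigOperators ComplexConjugate

theorem ch_sq (s : ℤ) (q : ℕ) : ch s q ^ 2 = 1 := by
  unfold ch
  split_ifs with h
  · exact h.2.choose_spec.2.1
  · simp

theorem vl_conj (s : ℤ) (q n : ℕ) : conj (vl s q n) = vl s q n := by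
  unfold vl
  by_cases hu : IsUnit (n : ZMod q)
  · have h1 : ch s q (n : ZMod q) ^ 2 = 1 := by
      have h2 := congrArg (fun χ : DirichletCharacter ℂ q => χ (n : ZMod q)) (ch_sq s q)
      simpa [MulChar.one_apply hu, MulChar.pow_apply' (ch s q) two_ne_zero] using h2
    rcases sq_eq_sq_iff_eq_or_eq_neg.1 (h1.trans (one_pow 2).symm) with h | h
    · rw [h]; simp
    · rw [h]; simp
  · rw [MulChar.map_nonunit _ hu]
    simp

theorem vl_norm (s : ℤ) (q n : ℕ) : ‖vl s q n‖ ≤ 1 := DirichletCharacter.norm_le_one _ _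

/-- the mean square of short sums is at most the sum of the correlations -/
theorem blocks (b : ℕ → ℂ) (N t : ℕ) :
    ∑ x ∈ range N, ‖∑ n ∈ Ioc x (x + t), b n‖ ^ 2 ≤
      ∑ i ∈ Icc 1 t, ∑ j ∈ Icc 1 t, ‖∑ x ∈ range N, b (x + i) * conj (b (x + j))‖ := by
  have h0 : ∀ x, ∑ n ∈ Ioc x (x + t), b n = ∑ i ∈ Icc 1 t, b (x + i) := by
    intro x
    symm
    refine sum_nbij (fun i => x + i) ?_ ?_ ?_ ?_
    · intro i hi
      rw [mem_Icc] at hi
      rw [mem_Ioc]
      omega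
    · intro i _ j _ h
      simpa using h
    · intro n hn
      rw [coe_Ioc, Set.mem_Ioc] at hn
      refine ⟨n - x, ?_, ?_⟩
      · rw [coe_Icc, Set.mem_Icc]
        omega
      · show x + (n - x) = n
        omega
    · intro i _
      rfl
  have h1 : ((∑ x ∈ range N, ‖∑ n ∈ Ioc x (x + t), b n‖ ^ 2 : ℝ) : ℂ) =
      ∑ i ∈ Icc 1 t, ∑ j ∈ Icc 1 t, ∑ x ∈ range N, b (x + i) * conj (b (x + j)) := by
    push_cast
    have h2 : ∀ x, ((‖∑ n ∈ Ioc x (x + t), b n‖ : ℂ)) ^ 2 =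
        ∑ i ∈ Icc 1 t, ∑ j ∈ Icc 1 t, b (x + i) * conj (b (x + j)) := by
      intro x
      rw [h0, ← Complex.mul_conj', map_sum, sum_mul_sum]
    rw [sum_congr rfl fun x _ => h2 x, sum_comm]
    refine sum_congr rfl fun i _ => ?_
    rw [sum_comm]
  have h3 : (0 : ℝ) ≤ ∑ x ∈ range N, ‖∑ n ∈ Ioc x (x + t), b n‖ ^ 2 := by positivity
  calc _ = ‖((∑ x ∈ range N, ‖∑ n ∈ Ioc x (x + t), b n‖ ^ 2 : ℝ) : ℂ)‖ := by
        rw [Complex.norm_real, Real.norm_of_nonneg h3]
    _ ≤ _ := by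
        rw [h1]
        refine (norm_sum_le _ _).trans (sum_le_sum fun i _ => norm_sum_le _ _)

/-- sums of square roots of greatest common divisors -/
theorem gcd_sum (q t : ℕ) (hq : q ≠ 0) :
    ∑ h ∈ Icc 1 t, √(Nat.gcd h q : ℝ) ≤ t * (q.divisors.card : ℝ) := by
  have h1 : ∀ h ∈ Icc 1 t, √(Nat.gcd h q : ℝ) ≤ ∑ d ∈ q.divisors, if d ∣ h then √(d : ℝ) else 0 := by
    intro h hh
    have h2 : Nat.gcd h q ∈ q.divisors := Nat.mem_divisors.2 ⟨Nat.gcd_dvd_right _ _, hq⟩
    have h3 := single_le_sum (f := fun d : ℕ => if d ∣ h then √(d : ℝ) else 0)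
      (fun d _ => by split_ifs <;> positivity) h2
    simpa [Nat.gcd_dvd_left] using h3
  refine (sum_le_sum h1).trans ?_
  rw [sum_comm]
  have h4 : ∀ d ∈ q.divisors, (∑ h ∈ Icc 1 t, if d ∣ h then √(d : ℝ) else 0) ≤ t := by
    intro d hd
    have hd0 : 0 < d := Nat.pos_of_mem_divisors hd
    rw [← sum_filter, sum_const, nsmul_eq_mul]
    have h5 : ((Icc 1 t).filter (fun h => d ∣ h)).card = t / d := by
      have := Nat.Ioc_filter_dvd_card_eq_div t d
      rw [← this]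
      congr 1
    rw [h5]
    have h6 : ((t / d : ℕ) : ℝ) ≤ (t : ℝ) / d := Nat.cast_div_le
    have hd1 : (1 : ℝ) ≤ d := by exact_mod_cast hd0
    have h7 : √(d : ℝ) ≤ d := by
      rw [Real.sqrt_le_left (by positivity)]
      nlinarith
    calc ((t / d : ℕ) : ℝ) * √(d : ℝ) ≤ (t : ℝ) / d * d := by gcongr
      _ = t := by field_simp
  calc _ ≤ ∑ d ∈ q.divisors, (t : ℝ) := sum_le_sum h4
    _ = _ := by rw [sum_const, nsmul_eq_mul, mul_comm]

/-- sums of a function of the distance -/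
theorem dist_sum (F : ℕ → ℝ) (hF : ∀ n, 0 ≤ F n) (t i : ℕ) (hi : i ∈ Icc 1 t) :
    ∑ j ∈ Icc 1 t, F (Nat.dist i j) ≤ F 0 + 2 * ∑ h ∈ Icc 1 t, F h := by
  rw [mem_Icc] at hi
  have h1 : ∑ j ∈ (Icc 1 t).filter (fun j => j ≤ i), F (Nat.dist i j) ≤ F 0 + ∑ h ∈ Icc 1 t, F h := by
    have h2 : ∑ j ∈ (Icc 1 t).filter (fun j => j ≤ i), F (Nat.dist i j) =
        ∑ h ∈ ((Icc 1 t).filter (fun j => j ≤ i)).image (fun j => Nat.dist i j), F h := by
      rw [sum_image]
      intro a ha b hb hab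
      rw [mem_coe, mem_filter] at ha hb
      simp only [Nat.dist] at hab
      omega
    rw [h2]
    have h3 : F 0 + ∑ h ∈ Icc 1 t, F h = ∑ h ∈ insert 0 (Icc 1 t), F h := by
      rw [sum_insert (by simp)]
    rw [h3]
    refine sum_le_sum_of_subset_of_nonneg ?_ fun n _ _ => hF n
    intro h hh
    rw [mem_image] at hh
    obtain ⟨j, hj, rfl⟩ := hh
    rw [mem_filter, mem_Icc] at hj
    rw [mem_insert, mem_Icc]
    simp only [Nat.dist]
    omega
  have h4 : ∑ j ∈ (Icc 1 t).filter (fun j => ¬ j ≤ i), F (Nat.dist i j) ≤ ∑ h ∈ Icc 1 t, F h := by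
    have h2 : ∑ j ∈ (Icc 1 t).filter (fun j => ¬ j ≤ i), F (Nat.dist i j) =
        ∑ h ∈ ((Icc 1 t).filter (fun j => ¬ j ≤ i)).image (fun j => Nat.dist i j), F h := by
      rw [sum_image]
      intro a ha b hb hab
      rw [mem_coe, mem_filter] at ha hb
      simp only [Nat.dist] at hab
      omega
    rw [h2]
    refine sum_le_sum_of_subset_of_nonneg ?_ fun n _ _ => hF n
    intro h hh
    rw [mem_image] at hh
    obtain ⟨j, hj, rfl⟩ := hh
    rw [mem_filter, mem_Icc] at hj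
    rw [mem_Icc]
    simp only [Nat.dist]
    omega
  rw [← sum_filter_add_sum_filter_not (Icc 1 t) (fun j => j ≤ i)]
  linarith

/-- the mean square over short blocks -/
theorem mean (s : ℤ) (q K t : ℕ) (E : ℝ) (hq0 : q ≠ 0) (htK : t ≤ K) (hKq : K ≤ q) (hE : 0 ≤ E)
    (hI : ∀ h x u : ℕ, u ≤ q → ‖∑ n ∈ Ioc x (x + u), vl s q n * vl s q (n + h)‖ ≤
      E * √((q : ℝ) * (Nat.gcd h q : ℝ))) :
    ∑ x ∈ range (2 * K + 1), ‖∑ n ∈ (Ioc x (x + t)) ∩ (Ioc K (2 * K)), vl s q n‖ ^ 2 ≤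
      t * (K + 2 * (E * √(q : ℝ) * (t * (q.divisors.card : ℝ)))) := by
  obtain ⟨b, hb⟩ : ∃ b : ℕ → ℂ, b = fun n => if n ∈ Ioc K (2 * K) then vl s q n else 0 := ⟨_, rfl⟩
  have hbc : ∀ n, conj (b n) = b n := by
    intro n
    rw [hb]
    dsimp only
    split_ifs
    · exact vl_conj s q n
    · simp
  have h1 : ∀ x, ∑ n ∈ (Ioc x (x + t)) ∩ (Ioc K (2 * K)), vl s q n = ∑ n ∈ Ioc x (x + t), b n := by
    intro x
    rw [hb, sum_ite_mem]
  simp only [h1]
  refine (blocks b _ t).trans ?_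
  obtain ⟨F, hF⟩ : ∃ F : ℕ → ℝ, F = fun h => if h = 0 then (K : ℝ) else
    E * √((q : ℝ) * (Nat.gcd h q : ℝ)) := ⟨_, rfl⟩
  have hF0 : ∀ n, 0 ≤ F n := by
    intro n
    rw [hF]
    dsimp only
    split_ifs
    · positivity
    · positivity
  -- the case `i ≤ j`
  have key : ∀ i j : ℕ, 1 ≤ i → i ≤ j → j ≤ t →
      ‖∑ x ∈ range (2 * K + 1), b (x + i) * conj (b (x + j))‖ ≤ F (j - i) := by
    intro i j hi hij hj
    have h2 : ∑ x ∈ range (2 * K + 1), b (x + i) * conj (b (x + j)) =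
        ∑ n ∈ Ioc K (2 * K), b n * b (n + (j - i)) := by
      have h3 : ∑ x ∈ range (2 * K + 1), b (x + i) * conj (b (x + j)) =
          ∑ n ∈ Ico i (2 * K + 1 + i), b n * b (n + (j - i)) := by
        have h33 := sum_Ico_add' (fun n => b n * b (n + (j - i))) 0 (2 * K + 1) i
        rw [zero_add] at h33
        rw [range_eq_Ico, ← h33]
        refine sum_congr rfl fun x _ => ?_
        rw [hbc]
        congr 2
        omega
      rw [h3]
      symm
      refine sum_subset ?_ ?_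
      · intro n hn
        rw [mem_Ioc] at hn
        rw [mem_Ico]
        omega
      · intro n _ hn
        have : b n = 0 := by
          rw [hb]
          dsimp only
          rw [if_neg hn]
        rw [this, zero_mul]
    rw [h2]
    rcases Nat.eq_or_lt_of_le hij with h | h
    · subst h
      have h4 : F (i - i) = K := by rw [hF]; simp
      rw [h4]
      calc _ ≤ ∑ n ∈ Ioc K (2 * K), (1 : ℝ) := by
            refine norm_sum_le_of_le _ fun n hn => ?_
            rw [norm_mul]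
            have h5 : ∀ n, ‖b n‖ ≤ 1 := by
              intro n
              rw [hb]
              dsimp only
              split_ifs
              · exact vl_norm s q n
              · simp
            exact mul_le_one₀ (h5 _) (norm_nonneg _) (h5 _)
        _ = K := by
            rw [sum_const, Nat.card_Ioc]
            simp only [nsmul_eq_mul, mul_one]
            congr 1
            omega
    · have h4 : F (j - i) = E * √((q : ℝ) * (Nat.gcd (j - i) q : ℝ)) := by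
        rw [hF]
        dsimp only
        rw [if_neg (by omega)]
      rw [h4]
      have h5 : ∑ n ∈ Ioc K (2 * K), b n * b (n + (j - i)) =
          ∑ n ∈ Ioc K (K + (K - (j - i))), vl s q n * vl s q (n + (j - i)) := by
        symm
        have h6 : ∑ n ∈ Ioc K (K + (K - (j - i))), vl s q n * vl s q (n + (j - i)) =
            ∑ n ∈ Ioc K (K + (K - (j - i))), b n * b (n + (j - i)) := by
          refine sum_congr rfl fun n hn => ?_
          rw [mem_Ioc] at hn
          rw [hb]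
          dsimp only
          rw [if_pos (by rw [mem_Ioc]; omega), if_pos (by rw [mem_Ioc]; omega)]
        rw [h6]
        refine sum_subset ?_ ?_
        · intro n hn
          rw [mem_Ioc] at hn ⊢
          omega
        · intro n hn1 hn2
          rw [mem_Ioc] at hn1 hn2
          have : b (n + (j - i)) = 0 := by
            rw [hb]
            dsimp only
            rw [if_neg (by rw [mem_Ioc]; omega)]
          rw [this, mul_zero]
      rw [h5]
      exact hI _ _ _ (by omega)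
  have key2 : ∀ i ∈ Icc 1 t, ∀ j ∈ Icc 1 t,
      ‖∑ x ∈ range (2 * K + 1), b (x + i) * conj (b (x + j))‖ ≤ F (Nat.dist i j) := by
    intro i hi j hj
    rw [mem_Icc] at hi hj
    rcases le_total i j with h | h
    · rw [Nat.dist_eq_sub_of_le h]
      exact key i j hi.1 h hj.2
    · rw [Nat.dist_eq_sub_of_le_right h]
      have h7 : ∑ x ∈ range (2 * K + 1), b (x + i) * conj (b (x + j)) =
          ∑ x ∈ range (2 * K + 1), b (x + j) * conj (b (x + i)) := by
        refine sum_congr rfl fun x _ => ?_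
        rw [hbc, hbc, mul_comm]
      rw [h7]
      exact key j i hj.1 h hi.2
  have h8 : 2 * ∑ h ∈ Icc 1 t, F h ≤ 2 * (E * √(q : ℝ) * (t * (q.divisors.card : ℝ))) := by
    have h9 : ∑ h ∈ Icc 1 t, F h = E * √(q : ℝ) * ∑ h ∈ Icc 1 t, √(Nat.gcd h q : ℝ) := by
      rw [mul_sum]
      refine sum_congr rfl fun h hh => ?_
      rw [mem_Icc] at hh
      rw [hF]
      dsimp only
      rw [if_neg (by omega), Real.sqrt_mul (by positivity), mul_assoc]
    rw [h9]
    have := gcd_sum q t hq0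
    gcongr
  have h10 : F 0 = K := by rw [hF]; simp
  calc _ ≤ ∑ i ∈ Icc 1 t, ∑ j ∈ Icc 1 t, F (Nat.dist i j) :=
        sum_le_sum fun i hi => sum_le_sum fun j hj => key2 i hi j hj
    _ ≤ ∑ i ∈ Icc 1 t, (F 0 + 2 * ∑ h ∈ Icc 1 t, F h) :=
        sum_le_sum fun i hi => dist_sum F hF0 t i hi
    _ = t * (F 0 + 2 * ∑ h ∈ Icc 1 t, F h) := by
        rw [sum_const, Nat.card_Icc, nsmul_eq_mul]
        simp
    _ ≤ _ := by
        rw [h10]
        gcongr

end SKW

open MeasureTheory Pool.Agent.N879.QM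

/-- SKW -/
theorem skw : S_BLK → S_INC → S_SKW := by
  intro hB hI ε hε
  obtain ⟨C1, hC1, hB⟩ := hB
  obtain ⟨C2, hC2, hI⟩ := hI (ε / 2) (by positivity)
  obtain ⟨C3, hC3, hD⟩ := Pool.Agent.H510R2.divisor_bound (ε / 2) (by positivity)
  refine ⟨C1 * (1 + 4 * (C2 * C3)), by positivity, ?_⟩
  intro s q A K hs hA hAK hKq
  have hq2 : 2 ≤ q := hs.1
  have hq0 : q ≠ 0 := by omega
  have hq1 : (1 : ℝ) ≤ q := by exact_mod_cast (by omega : 1 ≤ q)
  have hA0 : 0 < A := by linarith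
  have hK0 : (0 : ℝ) < K := by linarith
  have hK2 : 2 ≤ K := by
    have : (2 : ℝ) ≤ K := by linarith
    exact_mod_cast this
  obtain ⟨H, hH⟩ : ∃ H : ℕ, H = ⌈(K : ℝ) / A⌉₊ := ⟨_, rfl⟩
  have hKA : (1 : ℝ) ≤ K / A := by rwa [le_div_iff₀ hA0, one_mul]
  have hH1 : (K : ℝ) / A ≤ H := by rw [hH]; exact Nat.le_ceil _
  have hH2 : (H : ℝ) ≤ 2 * K / A := by
    have h1 : (H : ℝ) < K / A + 1 := by rw [hH]; exact Nat.ceil_lt_add_one (by positivity)
    have h2 : (2 : ℝ) * K / A = K / A + K / A := by ring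
    linarith
  have hH3 : 1 ≤ H := by
    have : (1 : ℝ) ≤ H := by linarith
    exact_mod_cast this
  have hHK : H ≤ K := by
    have h1 : (2 : ℝ) * K / A ≤ K := by
      rw [div_le_iff₀ hA0]
      nlinarith
    have : (H : ℝ) ≤ K := by linarith
    exact_mod_cast this
  have hH0 : (0 : ℝ) < H := by linarith
  obtain ⟨E, hE⟩ : ∃ E : ℝ, E = C2 * (q : ℝ) ^ (ε / 2) := ⟨_, rfl⟩
  obtain ⟨D, hDd⟩ : ∃ D : ℝ, D = (q.divisors.card : ℝ) := ⟨_, rfl⟩
  have hE0 : 0 ≤ E := by rw [hE]; positivity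
  have hD0 : 0 ≤ D := by rw [hDd]; positivity
  have hDq : D ≤ C3 * (q : ℝ) ^ (ε / 2) := by rw [hDd]; exact hD q (by omega)
  have hblk := hB (fun n => vl s q n) K H A (H * (K + 2 * (E * √(q : ℝ) * (H * D)))) hA hAK hH3 hH1 hH2 ?_
  · refine hblk.trans ?_
    have h1 : C1 * (A / (K * H)) * (H * (K + 2 * (E * √(q : ℝ) * (H * D)))) =
        C1 * (A + 2 * (E * D) * √(q : ℝ) * (A * H / K)) := by
      field_simp
    rw [h1]
    have h2 : A * H / K ≤ 2 := by
      rw [div_le_iff₀ hK0]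
      rw [le_div_iff₀ hA0] at hH2
      linarith
    have hqe : (q : ℝ) ^ (ε / 2) * (q : ℝ) ^ (ε / 2) = (q : ℝ) ^ ε := by
      rw [← Real.rpow_add (by linarith)]
      congr 1
      ring
    have hqe1 : 1 ≤ (q : ℝ) ^ ε := Real.one_le_rpow hq1 hε.le
    have h3 : E * D ≤ C2 * C3 * (q : ℝ) ^ ε := by
      calc E * D ≤ E * (C3 * (q : ℝ) ^ (ε / 2)) := by gcongr
        _ = C2 * C3 * ((q : ℝ) ^ (ε / 2) * (q : ℝ) ^ (ε / 2)) := by rw [hE]; ring
        _ = _ := by rw [hqe]
    have hsq : 0 ≤ √(q : ℝ) := Real.sqrt_nonneg _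
    have h4 : 2 * (E * D) * √(q : ℝ) * (A * H / K) ≤ 2 * (C2 * C3 * (q : ℝ) ^ ε) * √(q : ℝ) * 2 := by
      gcongr
    have h5 : A ≤ (q : ℝ) ^ ε * A := le_mul_of_one_le_left hA0.le hqe1
    calc C1 * (A + 2 * (E * D) * √(q : ℝ) * (A * H / K)) ≤
          C1 * ((q : ℝ) ^ ε * A + 2 * (C2 * C3 * (q : ℝ) ^ ε) * √(q : ℝ) * 2) := by gcongr
      _ = C1 * (q : ℝ) ^ ε * (A + 4 * (C2 * C3) * √(q : ℝ)) := by ring
      _ ≤ C1 * (q : ℝ) ^ ε * ((1 + 4 * (C2 * C3)) * (A + √(q : ℝ))) := by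
          have h6 : A + 4 * (C2 * C3) * √(q : ℝ) ≤ (1 + 4 * (C2 * C3)) * (A + √(q : ℝ)) := by
            have h7 : 0 ≤ 4 * (C2 * C3) * A := by positivity
            nlinarith
          gcongr
      _ = _ := by ring
  · intro t ht
    refine (SKW.mean s q K t E hq0 (ht.trans hHK) hKq hE0 ?_).trans ?_
    · intro h x u hu
      rw [hE]
      exact hI s q h x u hs hu
    · rw [← hDd]
      have ht' : (t : ℝ) ≤ H := by exact_mod_cast ht
      gcongr

end Pool.Agent.H27.T4
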