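import Pool.Agent.H27.T4.Stm
import Pool.Agent.H27.G.R_pool_sql_team_seeded_63374d34.N879.QM.Vl

set_option autoImplicit false

/-! Project T4, task VW: the second moment of every `L`-function. -/

namespace Pool.Agent.H27.T4

open Complex Filter Topology MeasureTheory Set Pool.Agent.N879.QM
open scoped BigOperators

open Pool.Agent.N879.QM.VL in
theorem vw (h0 : S_SKW) (h1 : S_P1) (h2 : S_BIG1P) (h3 : S_AFS) (h4 : S_CTS) : S_VW := by
  intro ε hε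
  obtain ⟨e, he⟩ : ∃ e : ℝ, e = ε / 4 := ⟨_, rfl⟩
  have he0 : 0 < e := by rw [he]; positivity
  obtain ⟨C0, hC0, h0⟩ := h0 e he0
  obtain ⟨C1, hC1, h1⟩ := h1
  obtain ⟨C2, hC2, h2⟩ := h2
  obtain ⟨C3, hC3, h3⟩ := h3
  obtain ⟨D, hD⟩ : ∃ D : ℝ, D = C0 + C1 + C2 * (1 + 1 / e ^ 2) := ⟨_, rfl⟩
  have hD0 : 0 < D := by rw [hD]; positivity
  refine ⟨3 * (2 * (C3 ^ 2 + 1) + 484 / (2 * e) ^ 2 * D), by positivity, ?_⟩
  intro s q A hI hA
  have hA0 : 0 < A := by linarith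
  have hq2 : (2 : ℝ) ≤ q := by exact_mod_cast hI.1
  have hq0 : (0 : ℝ) < q := by linarith
  obtain ⟨Y, hY⟩ : ∃ Y : ℝ, Y = (q : ℝ) * A := ⟨_, rfl⟩
  have hYA : A ≤ Y := by rw [hY]; nlinarith
  have hYq : (q : ℝ) ≤ Y := by rw [hY]; nlinarith
  have hY2 : 2 ≤ Y := hA.trans hYA
  have hY0 : 0 < Y := by linarith
  have hlY : 0 ≤ Real.log Y := Real.log_nonneg (by linarith)
  have hYe : (1:ℝ) ≤ Y ^ (2 * e) := Real.one_le_rpow (by linarith) (by positivity)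
  have hsq : 0 ≤ √(q : ℝ) := Real.sqrt_nonneg _
  rw [← hY]
  have hsqr : (Y ^ e) ^ 2 = Y ^ (2 * e) := by
    rw [← Real.rpow_natCast, ← Real.rpow_mul hY0.le]
    congr 1
    push_cast
    ring
  have hl2 : Real.log Y ^ 2 ≤ 4 / (2 * e) ^ 2 * Y ^ (2 * e) := by
    have h5 : Real.log Y ≤ Y ^ e / e := Real.log_le_rpow_div hY0.le he0
    calc Real.log Y ^ 2 ≤ (Y ^ e / e) ^ 2 := pow_le_pow_left₀ hlY h5 2
      _ = 4 / (2 * e) ^ 2 * (Y ^ e) ^ 2 := by field_simp; ring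
      _ = _ := by rw [hsqr]
  obtain ⟨J, hJ⟩ : ∃ J : ℕ, J = ⌈6 * Real.logb 2 Y⌉₊ := ⟨_, rfl⟩
  have hlog2 : 0 < Real.log 2 := Real.log_pos (by norm_num)
  have hJ1 : Y ^ 6 ≤ (2:ℝ) ^ J := by
    have h5 : 6 * Real.logb 2 Y ≤ J := by rw [hJ]; exact Nat.le_ceil _
    calc Y ^ 6 = ((2:ℝ) ^ (Real.logb 2 Y)) ^ 6 := by
          rw [Real.rpow_logb (by norm_num) (by norm_num) hY0]
      _ = (2:ℝ) ^ (6 * Real.logb 2 Y) := by
          rw [← Real.rpow_natCast, ← Real.rpow_mul (by norm_num)]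
          congr 1
          push_cast
          ring
      _ ≤ (2:ℝ) ^ (J : ℝ) := Real.rpow_le_rpow_of_exponent_le (by norm_num) h5
      _ = (2:ℝ) ^ J := Real.rpow_natCast _ _
  have hJ2 : (J : ℝ) ≤ 11 * Real.log Y := by
    have h5 : 0 ≤ 6 * Real.logb 2 Y :=
      mul_nonneg (by norm_num) (Real.logb_nonneg (by norm_num) (by linarith))
    have h6 : (J : ℝ) < 6 * Real.logb 2 Y + 1 := by rw [hJ]; exact Nat.ceil_lt_add_one h5
    have h7 : Real.log 2 ≤ Real.log Y := Real.log_le_log (by norm_num) hY2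
    have h8 : (0.6931471803 : ℝ) < Real.log 2 := Real.log_two_gt_d9
    have h9 : Real.logb 2 Y ≤ 1.45 * Real.log Y := by
      rw [Real.logb, div_le_iff₀ hlog2]
      nlinarith
    have h10 : 1 ≤ 1.45 * Real.log Y := by nlinarith
    linarith [h6, h9, h10]
  have hJ3 : (J : ℝ) ^ 2 ≤ 484 / (2 * e) ^ 2 * Y ^ (2 * e) := by
    calc (J : ℝ) ^ 2 ≤ (11 * Real.log Y) ^ 2 := pow_le_pow_left₀ (Nat.cast_nonneg _) hJ2 2
      _ = 121 * Real.log Y ^ 2 := by ring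
      _ ≤ 121 * (4 / (2 * e) ^ 2 * Y ^ (2 * e)) := mul_le_mul_of_nonneg_left hl2 (by norm_num)
      _ = _ := by ring
  -- pieces
  have hAq : 0 < A + √(q : ℝ) := by linarith
  have hAle : A ≤ Y ^ (2 * e) * (A + √(q : ℝ)) := by
    calc A ≤ 1 * (A + √(q : ℝ)) := by linarith
      _ ≤ _ := mul_le_mul_of_nonneg_right hYe hAq.le
  have hpiece : ∀ i : ℕ, ∫ α in (-A)..A, ‖SK s q (2 ^ i) α‖ ^ 2 ≤ D * (Y ^ (2 * e) * (A + √(q : ℝ))) := by
    intro i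
    have hn : 0 ≤ Y ^ (2 * e) * (A + √(q : ℝ)) := by positivity
    have hDle : C0 * (Y ^ (2 * e) * (A + √(q : ℝ))) ≤ D * (Y ^ (2 * e) * (A + √(q : ℝ))) ∧
        C1 * (Y ^ (2 * e) * (A + √(q : ℝ))) ≤ D * (Y ^ (2 * e) * (A + √(q : ℝ))) ∧
        (C2 * (1 + 1 / e ^ 2)) * (Y ^ (2 * e) * (A + √(q : ℝ))) ≤ D * (Y ^ (2 * e) * (A + √(q : ℝ))) := by
      have h6 : 0 < C2 * (1 + 1 / e ^ 2) := by positivity
      refine ⟨mul_le_mul_of_nonneg_right ?_ hn, mul_le_mul_of_nonneg_right ?_ hn,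
        mul_le_mul_of_nonneg_right ?_ hn⟩ <;> rw [hD] <;> linarith
    by_cases hi : ((2 ^ i : ℕ) : ℝ) ≤ A
    · have h5 := (h1 A (2 ^ i) (fun n => vl s q n) hA hi (fun n => vl_le s q n)).1
      refine (show ∫ α in (-A)..A, ‖SK s q (2 ^ i) α‖ ^ 2 ≤ C1 * A from h5).trans ?_
      exact (mul_le_mul_of_nonneg_left hAle hC1.le).trans hDle.2.1
    · push Not at hi
      rcases le_total (2 ^ i) q with hiq | hiq
      · refine (h0 s q A (2 ^ i) hI hA hi.le hiq).trans ?_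
        refine le_trans ?_ hDle.1
        rw [mul_assoc]
        refine mul_le_mul_of_nonneg_left (mul_le_mul_of_nonneg_right ?_ hAq.le) hC0.le
        calc (q : ℝ) ^ e ≤ Y ^ e := Real.rpow_le_rpow hq0.le hYq he0.le
          _ ≤ Y ^ (2 * e) := Real.rpow_le_rpow_of_exponent_le (by linarith) (by linarith)
      · refine (h2 s q A (2 ^ i) hI hA hi.le hiq).trans ?_
        refine le_trans ?_ hDle.2.2
        have hlq : 0 ≤ Real.log q := Real.log_nonneg (by linarith)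
        have h5 : Real.log q ≤ Y ^ e / e :=
          (Real.log_le_log hq0 hYq).trans (Real.log_le_rpow_div hY0.le he0)
        have h6 : Real.log q ^ 2 ≤ 1 / e ^ 2 * Y ^ (2 * e) := by
          calc Real.log q ^ 2 ≤ (Y ^ e / e) ^ 2 := pow_le_pow_left₀ hlq h5 2
            _ = 1 / e ^ 2 * (Y ^ e) ^ 2 := by rw [div_pow]; ring
            _ = _ := by rw [hsqr]
        have h7 : 1 + Real.log q ^ 2 ≤ (1 + 1 / e ^ 2) * Y ^ (2 * e) := by nlinarith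
        calc C2 * A * (1 + Real.log q ^ 2) ≤ C2 * A * ((1 + 1 / e ^ 2) * Y ^ (2 * e)) :=
              mul_le_mul_of_nonneg_left h7 (by positivity)
          _ = C2 * (1 + 1 / e ^ 2) * (Y ^ (2 * e) * A) := by ring
          _ ≤ C2 * (1 + 1 / e ^ 2) * (Y ^ (2 * e) * (A + √(q : ℝ))) := by
              refine mul_le_mul_of_nonneg_left (mul_le_mul_of_nonneg_left ?_ (by positivity)) (by positivity)
              linarith
  have hE : ∀ α ∈ Icc (-A) A, ‖LL s q (pt α) - PN s q (2 ^ J) α‖ ≤ C3 := by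
    intro α hα
    have h5 := h3 s q (2 ^ J) α hI Nat.one_le_two_pow
    have h6 : |α| ≤ A := abs_le.2 hα
    have h7 : Y ^ 3 ≤ √((2 ^ J : ℕ) : ℝ) := by
      apply Real.le_sqrt_of_sq_le
      rw [← pow_mul]
      push_cast
      exact hJ1
    refine h5.trans ?_
    rw [div_le_iff₀ (lt_of_lt_of_le (by positivity) h7)]
    calc C3 * q * (1 + |α|) ≤ C3 * Y * (1 + Y) := by gcongr; exact h6.trans hYA
      _ = C3 * (Y * (1 + Y)) := by ring
      _ ≤ C3 * Y ^ 3 := by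
          refine mul_le_mul_of_nonneg_left ?_ hC3.le
          nlinarith [sq_nonneg (Y - 2), mul_pos hY0 hY0]
      _ ≤ C3 * √((2 ^ J : ℕ) : ℝ) := mul_le_mul_of_nonneg_left h7 hC3.le
  -- pointwise
  have hpt : ∀ α ∈ Icc (-A) A, ‖LL s q (pt α)‖ ^ 2 ≤
      3 * (C3 ^ 2 + 1 + J * ∑ i ∈ Finset.range J, ‖SK s q (2 ^ i) α‖ ^ 2) := by
    intro α hα
    have h5 := hE α hα
    have h6 := PN_one_le s q α
    obtain ⟨x, hx⟩ : ∃ x, x = ‖LL s q (pt α) - PN s q (2 ^ J) α‖ := ⟨_, rfl⟩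
    obtain ⟨y, hy⟩ : ∃ y, y = ‖PN s q 1 α‖ := ⟨_, rfl⟩
    obtain ⟨z, hz⟩ : ∃ z, z = ∑ i ∈ Finset.range J, ‖SK s q (2 ^ i) α‖ := ⟨_, rfl⟩
    have hx0 : 0 ≤ x := by rw [hx]; exact norm_nonneg _
    have hy0 : 0 ≤ y := by rw [hy]; exact norm_nonneg _
    have hz0 : 0 ≤ z := by rw [hz]; exact Finset.sum_nonneg fun i _ => norm_nonneg _
    have h7 : ‖LL s q (pt α)‖ ≤ x + y + z := by
      calc ‖LL s q (pt α)‖ = ‖(LL s q (pt α) - PN s q (2 ^ J) α) + PN s q 1 α +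
            ∑ i ∈ Finset.range J, SK s q (2 ^ i) α‖ := by
            congr 1
            rw [PN_dyadic s q J α]
            ring
        _ ≤ ‖LL s q (pt α) - PN s q (2 ^ J) α‖ + ‖PN s q 1 α‖ +
            ‖∑ i ∈ Finset.range J, SK s q (2 ^ i) α‖ := norm_add₃_le
        _ ≤ _ := by
            rw [← hx, ← hy, hz]
            exact add_le_add_right (norm_sum_le _ _) _
    have h8 : z ^ 2 ≤ J * ∑ i ∈ Finset.range J, ‖SK s q (2 ^ i) α‖ ^ 2 := by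
      have h9 := sq_sum_le_card_mul_sum_sq (s := Finset.range J)
        (f := fun i => ‖SK s q (2 ^ i) α‖)
      rw [Finset.card_range] at h9
      rw [hz]
      exact h9
    rw [← hx] at h5
    rw [← hy] at h6
    have h10 : x ^ 2 ≤ C3 ^ 2 := pow_le_pow_left₀ hx0 h5 2
    have h11 : y ^ 2 ≤ 1 := by nlinarith
    calc ‖LL s q (pt α)‖ ^ 2 ≤ (x + y + z) ^ 2 := pow_le_pow_left₀ (norm_nonneg _) h7 2
      _ ≤ 3 * (x ^ 2 + y ^ 2 + z ^ 2) := by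
          nlinarith [sq_nonneg (x - y), sq_nonneg (y - z), sq_nonneg (x - z)]
      _ ≤ _ := by linarith
  have hcL : Continuous fun α : ℝ => ‖LL s q (pt α)‖ ^ 2 := ((h4 s q hI).norm).pow 2
  have hcS : ∀ i : ℕ, Continuous fun α : ℝ => ‖SK s q (2 ^ i) α‖ ^ 2 := fun i =>
    ((SK_cont s q (2 ^ i)).norm).pow 2
  have hcSum : Continuous fun α : ℝ => ∑ i ∈ Finset.range J, ‖SK s q (2 ^ i) α‖ ^ 2 :=
    continuous_finsetSum _ fun i _ => hcS i
  have h5 : ∫ α in (-A)..A, ‖LL s q (pt α)‖ ^ 2 ≤ ∫ α in (-A)..A,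
      3 * (C3 ^ 2 + 1 + J * ∑ i ∈ Finset.range J, ‖SK s q (2 ^ i) α‖ ^ 2) :=
    intervalIntegral.integral_mono_on (by linarith) (hcL.intervalIntegrable _ _)
      (Continuous.intervalIntegrable (by fun_prop) _ _) hpt
  have h6 : ∫ α in (-A)..A, 3 * (C3 ^ 2 + 1 + J * ∑ i ∈ Finset.range J, ‖SK s q (2 ^ i) α‖ ^ 2) =
      3 * (2 * A * (C3 ^ 2 + 1) +
        J * ∑ i ∈ Finset.range J, ∫ α in (-A)..A, ‖SK s q (2 ^ i) α‖ ^ 2) := by
    rw [intervalIntegral.integral_const_mul, intervalIntegral.integral_add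
      (Continuous.intervalIntegrable (by fun_prop) _ _)
      (Continuous.intervalIntegrable (by fun_prop) _ _), intervalIntegral.integral_const,
      intervalIntegral.integral_const_mul, intervalIntegral.integral_finsetSum
        (fun i _ => (hcS i).intervalIntegrable _ _), smul_eq_mul]
    ring
  have h7 : ∑ i ∈ Finset.range J, ∫ α in (-A)..A, ‖SK s q (2 ^ i) α‖ ^ 2 ≤
      J * (D * (Y ^ (2 * e) * (A + √(q : ℝ)))) := by
    refine (Finset.sum_le_sum fun i _ => hpiece i).trans (le_of_eq ?_)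
    rw [Finset.sum_const, Finset.card_range, nsmul_eq_mul]
  have hYY : Y ^ (2 * e) * Y ^ (2 * e) = Y ^ ε := by
    rw [← Real.rpow_add hY0]
    congr 1
    rw [he]
    ring
  have hYε : (1:ℝ) ≤ Y ^ ε := Real.one_le_rpow (by linarith) hε.le
  have h8 : (J : ℝ) * ∑ i ∈ Finset.range J, ∫ α in (-A)..A, ‖SK s q (2 ^ i) α‖ ^ 2 ≤
      484 / (2 * e) ^ 2 * D * (Y ^ ε * (A + √(q : ℝ))) := by
    calc (J : ℝ) * ∑ i ∈ Finset.range J, ∫ α in (-A)..A, ‖SK s q (2 ^ i) α‖ ^ 2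
        ≤ J * (J * (D * (Y ^ (2 * e) * (A + √(q : ℝ))))) := mul_le_mul_of_nonneg_left h7 (Nat.cast_nonneg _)
      _ = (J : ℝ) ^ 2 * (D * (Y ^ (2 * e) * (A + √(q : ℝ)))) := by ring
      _ ≤ (484 / (2 * e) ^ 2 * Y ^ (2 * e)) * (D * (Y ^ (2 * e) * (A + √(q : ℝ)))) :=
          mul_le_mul_of_nonneg_right hJ3 (by positivity)
      _ = 484 / (2 * e) ^ 2 * D * ((Y ^ (2 * e) * Y ^ (2 * e)) * (A + √(q : ℝ))) := by ring
      _ = _ := by rw [hYY]
  have h9 : 2 * A * (C3 ^ 2 + 1) ≤ 2 * (C3 ^ 2 + 1) * (Y ^ ε * (A + √(q : ℝ))) := by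
    have h10 : A ≤ Y ^ ε * (A + √(q : ℝ)) := by
      calc A ≤ 1 * (A + √(q : ℝ)) := by linarith
        _ ≤ _ := mul_le_mul_of_nonneg_right hYε hAq.le
    calc 2 * A * (C3 ^ 2 + 1) = 2 * (C3 ^ 2 + 1) * A := by ring
      _ ≤ _ := mul_le_mul_of_nonneg_left h10 (by positivity)
  calc ∫ α in (-A)..A, ‖LL s q (pt α)‖ ^ 2 ≤ _ := h5
    _ = _ := h6
    _ ≤ 3 * (2 * (C3 ^ 2 + 1) * (Y ^ ε * (A + √(q : ℝ))) +
        484 / (2 * e) ^ 2 * D * (Y ^ ε * (A + √(q : ℝ)))) := by linarith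
    _ = _ := by ring

end Pool.Agent.H27.T4
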