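import Pool.Agent.H27.T4.MAINW
import Pool.Agent.H27.T4.SKW
import Pool.Agent.H27.T4.MIXP
import Pool.Agent.H27.T4.MIXM
import Pool.Agent.H27.T4.DEC
import Pool.Agent.H27.T4.MIXQ
import Pool.Agent.H27.T4.INC
import Pool.Agent.H27.T4.VW
import Pool.Agent.H27.G.R_pool_sql_team_seeded_63374d34.N879.QM.AllB

set_option autoImplicit false

/-! Project T4: all parts together. -/

namespace Pool.Agent.H27.T4

open Pool.Agent.N879.QM

theorem all_vw : S_VW := by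
  have hM := t_MVG
  have hB := t_BLK hM
  have hO := t_ONE
  have hPV := t_PVI
  have hMIXM := mixm mixp
  have hMIXQ := mixq dec hMIXM
  have hINC := inc hMIXQ
  have hSKW := skw hB hINC
  exact vw hSKW t_P1 (t_BIG1P hB hO hPV) t_AFS t_CTS

theorem all_mainW : S_MAINW := by
  have hU := t_UNI
  have hA := t_AVG hU
  have hD := t_DIAG hA
  have hG := t_GK hU
  have hP1 := t_P1
  have hP2 := t_P2 hG
  have hM := t_MVG
  have hB := t_BLK hM
  have hL := t_LSB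
  have hPV := t_PVI
  have hHB := t_HBG
  have hWQ := t_WQ
  have hMID := t_MID hB hHB hWQ
  have hBP := t_BIGP hB hL hPV
  have hAF := t_AFS
  have hC := t_CTS
  have hOP := t_OPB hP2 hMID hBP hAF hC
  have hTE := t_TEL
  have hE := t_EUL
  have hZR := t_ZR t_ZET hE
  have hFL := t_FL
  have hCO := t_COEF hFL
  exact mainw all_vw hP1 hOP hTE hC hD hCO hZR hE t_NS

/-- all `θ` -/
theorem all_theta (k : ℕ) (s : ℤ) (θ : ℝ) (hk : 1 ≤ k) (hs : s = 1 ∨ s = -1) (hθ : 1 / 2 - 1 / (12 * k) ≤ θ) :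
    ∃ δ X₀ : ℝ, 0 < δ ∧ ∀ X : ℝ, X₀ ≤ X →
    mS k (X ^ θ) {β | X ^ (1 - δ) < ‖(∑ q ∈ Q s X, ∏ j, LL s q (pt (β j))) - ((c0 * X : ℝ) : ℂ) * MT (im β)‖} ≤
      ENNReal.ofReal (X ^ (k * θ - δ)) := by
  rcases le_or_gt θ 1 with h | h
  · exact all_mainW k s θ hk hs hθ h
  · exact all_main k s θ hk hs h

end Pool.Agent.H27.T4
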