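import Pool.Agent.H27.T4.Stm
import Pool.Agent.H27.G.R_pool_sql_team_seeded_63374d34.N879.QM.AsmB

set_option autoImplicit false

/-! Project T4: the first mean square. -/

namespace Pool.Agent.H27.T4

open Complex Filter Topology MeasureTheory Set Pool.Agent.N879.QM
open scoped BigOperators

noncomputable section

variable {k : ℕ}

/-- powers of `X` absorb logarithms of `A` -/
lemma logA_le {θ ρ : ℝ} (hθ : 0 < θ) (hρ : 0 < ρ) :
    ∀ᶠ X : ℝ in atTop, Real.log (X ^ θ) ≤ X ^ ρ := by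
  filter_upwards [log_small 1 hθ hρ, eventually_gt_atTop 0] with X h1 h2
  rw [Real.log_rpow h2]
  simpa using h1

/-- the operator bound with `d = θ/6` -/
lemma op_num {X θ η ρ CO : ℝ} {N : ℕ} (hX : 1 ≤ X) (hηθ : η ≤ θ / 3) (hCO : 0 < CO)
    (hN : X ^ η / 4 ≤ N) :
    CO * X ^ ρ * X ^ θ * (X / √N + X ^ (1 + θ / 6) * (X ^ θ) ^ (-(1 / 3) : ℝ) + X ^ (1 - θ / 6)) ≤
      4 * CO * X ^ (ρ + θ + 1 - η / 2) := by
  have hX0 : 0 < X := by linarith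
  have e1 : X / √N ≤ 2 * X ^ (1 - η / 2) := by
    have h2 : √(X ^ η / 4) ≤ √N := Real.sqrt_le_sqrt hN
    have h4 : X ^ (η / 2) / 2 ≤ √(X ^ η / 4) := by
      apply Real.le_sqrt_of_sq_le
      have h5 : (X ^ (η / 2)) ^ 2 = X ^ η := by
        rw [← Real.rpow_natCast, ← Real.rpow_mul hX0.le]
        congr 1
        push_cast; linarith
      have : (X ^ (η / 2) / 2) ^ 2 = (X ^ (η / 2)) ^ 2 / 4 := by ring
      rw [this, h5]
    have h3 : 0 < X ^ (η / 2) := by positivity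
    rw [div_le_iff₀ (by linarith)]
    have h6 : X = X ^ (1 - η / 2) * X ^ (η / 2) := by
      rw [← Real.rpow_add hX0]; ring_nf; exact (Real.rpow_one X).symm
    calc X = 2 * X ^ (1 - η / 2) * (X ^ (η / 2) / 2) := by rw [mul_assoc]; nth_rewrite 1 [h6]; ring
      _ ≤ 2 * X ^ (1 - η / 2) * √N := by
          apply mul_le_mul_of_nonneg_left _ (by positivity)
          linarith
  have e2 : X ^ (1 + θ / 6) * (X ^ θ) ^ (-(1 / 3) : ℝ) ≤ X ^ (1 - η / 2) := by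
    rw [← Real.rpow_mul hX0.le, ← Real.rpow_add hX0]
    apply Real.rpow_le_rpow_of_exponent_le hX
    linarith
  have e3 : X ^ (1 - θ / 6) ≤ X ^ (1 - η / 2) := by
    apply Real.rpow_le_rpow_of_exponent_le hX
    linarith
  have e4 : X / √N + X ^ (1 + θ / 6) * (X ^ θ) ^ (-(1 / 3) : ℝ) + X ^ (1 - θ / 6) ≤ 4 * X ^ (1 - η / 2) := by linarith
  calc CO * X ^ ρ * X ^ θ * (X / √N + X ^ (1 + θ / 6) * (X ^ θ) ^ (-(1 / 3) : ℝ) + X ^ (1 - θ / 6))
      ≤ CO * X ^ ρ * X ^ θ * (4 * X ^ (1 - η / 2)) := mul_le_mul_of_nonneg_left e4 (by positivity)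
    _ = 4 * CO * (X ^ ρ * X ^ θ * X ^ (1 - η / 2)) := by ring
    _ = 4 * CO * X ^ (ρ + θ + 1 - η / 2) := by
        rw [← Real.rpow_add hX0, ← Real.rpow_add hX0]; congr 2; ring

lemma hexp_num {κ θ ρ τ : ℝ} (hκ : 1 ≤ κ) (hθ : 1 / 2 - 1 / (12 * κ) ≤ θ) (hρ : 0 ≤ ρ)
    (hρk : ρ * κ ≤ 1 / (12 * κ) / 50) (hτ : τ ≤ θ + 1 / (12 * κ)) :
    (ρ + θ + 1 - (θ / 3) / 2) + (τ + ρ) * (κ - 1) + 1 ≤ κ * θ + 2 - 1 / (24 * κ) := by
  have hκ0 : 0 < κ := by linarith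
  have b1 : (τ + ρ) * (κ - 1) ≤ (θ + 1 / (12 * κ) + ρ) * (κ - 1) :=
    mul_le_mul_of_nonneg_right (by linarith) (by linarith)
  have b4 : 1 / (24 * κ) = (1 / (12 * κ)) / 2 := by field_simp; norm_num
  have b5 : 1 / (12 * κ) * κ = 1 / 12 := by field_simp
  rw [b4]
  set u : ℝ := 1 / (12 * κ) with hu
  have b2 : (θ + u + ρ) * (κ - 1) = κ * θ - θ + (u * κ - u) + (ρ * κ - ρ) := by ring
  rw [b2, b5] at b1
  linarith [show 0 < u by positivity]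

/-- stage 1: `L` replaced by the polynomial of length `A` -/
lemma E1a (hW : S_VW) (hP : S_P1) (hO : S_OPB) (hT : S_TEL) (hc : S_CTS) (hk : 1 ≤ k) {θ : ℝ}
    (hθ : 1 / 2 - 1 / (12 * k) ≤ θ) (hθ1 : θ ≤ 1) :
    ∃ C X₀ : ℝ, 0 < C ∧ ∀ (s : ℤ) (X : ℝ), s = 1 ∨ s = -1 → X₀ ≤ X →
      ∫⁻ β, ENNReal.ofReal (‖∑ q ∈ Q s X,
        (∏ j, LL s q (pt (β j)) - ∏ j, PN s q ⌊X ^ θ⌋₊ (β j))‖ ^ 2) ∂(mS k (X ^ θ)) ≤
        ENNReal.ofReal (C * X ^ (k * θ + 2 - 1 / (24 * k))) := by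
  classical
  have hk0 : (0 : ℝ) < k := by exact_mod_cast hk
  have hk1 : (1 : ℝ) ≤ k := by exact_mod_cast hk
  have hik : 1 / (12 * k : ℝ) ≤ 1 / 12 := by
    apply one_div_le_one_div_of_le (by norm_num); linarith
  have hik0 : 0 < 1 / (12 * k : ℝ) := by positivity
  have hθ0 : 0 < θ := by linarith
  have hθ5 : 5 / 12 ≤ θ := by linarith
  set ρ : ℝ := 1 / (1000 * k ^ 2) with hρ
  have hρ0 : 0 < ρ := by positivity
  obtain ⟨CO, hCO, hO⟩ := hO ρ hρ0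
  obtain ⟨CP, hCP, hP⟩ := hP
  obtain ⟨CW, hCW, hW⟩ := hW (ρ / 2) (by positivity)
  have ev2 : ∀ᶠ X : ℝ in atTop, 2 ≤ X ^ θ := (tendsto_rpow_atTop hθ0).eventually_ge_atTop _
  obtain ⟨X₀, hX₀⟩ := eventually_atTop.1 (((logA_le hθ0 hρ0).and ev2).and (eventually_ge_atTop 2))
  refine ⟨4 ^ k * (4 * CO) * (2 * CW + CP) ^ (k - 1), X₀, by positivity, ?_⟩
  intro s X hs hX
  obtain ⟨⟨v1, v2⟩, v3⟩ := hX₀ X hX
  have hX0 : 0 < X := by linarith
  have hX1 : 1 ≤ X := by linarith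
  set A : ℝ := X ^ θ with hA
  have hAX : A ≤ X := by
    rw [hA]
    calc X ^ θ ≤ X ^ (1 : ℝ) := Real.rpow_le_rpow_of_exponent_le hX1 hθ1
      _ = X := Real.rpow_one X
  have hA0 : 0 < A := by linarith
  obtain ⟨f1, f2, f3⟩ := floor_half (show 1 ≤ A by linarith)
  set N : ℕ := ⌊A⌋₊ with hNd
  -- `max θ (1/2)`
  set τ : ℝ := max θ (1 / 2) with hτ
  have hτθ : θ ≤ τ := le_max_left _ _
  have hτ2 : 1 / 2 ≤ τ := le_max_right _ _
  have hτ3 : τ ≤ θ + 1 / (12 * k) := max_le (by linarith) (by linarith)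
  set K0 : ℝ := CO * X ^ ρ * A * (X / √N + X ^ (1 + θ / 6) * A ^ (-(1 / 3) : ℝ) + X ^ (1 - θ / 6)) with hK0
  set V0 : ℝ := (2 * CW + CP) * X ^ (τ + ρ) with hV0
  have hK0' : 0 ≤ K0 := by positivity
  have hV0' : 0 ≤ V0 := by positivity
  have h1 := hT k (Q s X) (fun q α => LL s q (pt α)) (fun q => PN s q N) A K0 V0 hA0 hK0' hV0'
    (fun q hq => hc s q (Q_is hq).1) (fun q _ => PN_cont s q N)
    (fun c => hO s X A (θ / 6) N c hs v2 hAX (by positivity) (by linarith) f3)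
    (fun q hq => by
      have hq' := Q_is hq
      have hqX : (q : ℝ) ≤ X := by linarith [hq'.2]
      have hq0 : (0 : ℝ) ≤ q := Nat.cast_nonneg q
      refine (hW s q A hq'.1 v2).trans ?_
      have a1 : ((q : ℝ) * A) ^ (ρ / 2) ≤ X ^ ρ := by
        calc ((q : ℝ) * A) ^ (ρ / 2) ≤ (X * X) ^ (ρ / 2) := by
              apply Real.rpow_le_rpow (by positivity) _ (by positivity)
              exact mul_le_mul hqX hAX hA0.le hX0.le
          _ = X ^ ρ := by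
              rw [← sq, ← Real.rpow_natCast, ← Real.rpow_mul hX0.le]; congr 1; push_cast; ring
      have a2 : A ≤ X ^ τ := by
        rw [hA]; exact Real.rpow_le_rpow_of_exponent_le hX1 hτθ
      have a3 : √(q : ℝ) ≤ X ^ τ := by
        calc √(q : ℝ) ≤ √X := Real.sqrt_le_sqrt hqX
          _ = X ^ (1 / 2 : ℝ) := Real.sqrt_eq_rpow X
          _ ≤ X ^ τ := Real.rpow_le_rpow_of_exponent_le hX1 hτ2
      have a4 : X ^ (τ + ρ) = X ^ ρ * X ^ τ := by rw [← Real.rpow_add hX0]; congr 1; ring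
      have a5 : (0 : ℝ) ≤ CP * X ^ (τ + ρ) := by positivity
      calc CW * ((q : ℝ) * A) ^ (ρ / 2) * (A + √(q : ℝ)) ≤ CW * X ^ ρ * (X ^ τ + X ^ τ) := by gcongr
        _ = 2 * CW * X ^ (τ + ρ) := by rw [a4]; ring
        _ ≤ V0 := by rw [hV0]; linarith)
    (fun q hq => by
      have h2 := (hP A N (fun n => vl s q n) v2 f2 (fun n => vl_le s q n)).2
      refine le_trans h2 ?_
      have a2 : A ≤ X ^ τ := by
        rw [hA]; exact Real.rpow_le_rpow_of_exponent_le hX1 hτθ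
      have a4 : X ^ (τ + ρ) = X ^ τ * X ^ ρ := by rw [← Real.rpow_add hX0]
      have a5 : (0 : ℝ) ≤ 2 * CW * X ^ (τ + ρ) := by positivity
      have a6 : 0 ≤ Real.log A := Real.log_nonneg (by linarith)
      calc CP * A * Real.log A ≤ CP * X ^ τ * X ^ ρ := by gcongr
        _ = CP * X ^ (τ + ρ) := by rw [a4]; ring
        _ ≤ V0 := by rw [hV0]; linarith)
  refine h1.trans (ENNReal.ofReal_le_ofReal ?_)
  have hN4 : X ^ (θ / 3) / 4 ≤ (N : ℝ) := by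
    have : X ^ (θ / 3) ≤ A := by
      rw [hA]; apply Real.rpow_le_rpow_of_exponent_le hX1; linarith
    have h5 : 0 < X ^ (θ / 3) := by positivity
    linarith
  have hKb : K0 ≤ 4 * CO * X ^ (ρ + θ + 1 - (θ / 3) / 2) :=
    op_num hX1 le_rfl hCO hN4
  have hcard : ((Q s X).card : ℝ) ≤ X := Q_card hX1
  have hVp : V0 ^ (k - 1) = (2 * CW + CP) ^ (k - 1) * X ^ ((τ + ρ) * ((k - 1 : ℕ) : ℝ)) := by
    rw [hV0, mul_pow, ← Real.rpow_natCast (X ^ (τ + ρ)), ← Real.rpow_mul hX0.le]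
  have hcast : ((k - 1 : ℕ) : ℝ) = k - 1 := by
    rw [Nat.cast_sub hk]; simp
  rw [hcast] at hVp
  have hρk : ρ * k ≤ 1 / (12 * k) / 50 := by
    rw [hρ, div_div, div_mul_eq_mul_div, one_mul, div_le_div_iff₀ (by positivity) (by positivity)]
    nlinarith
  have hexp : (ρ + θ + 1 - (θ / 3) / 2) + (τ + ρ) * ((k : ℝ) - 1) + 1 ≤ k * θ + 2 - 1 / (24 * k) := by
    exact hexp_num hk1 hθ hρ0.le hρk hτ3
  calc 4 ^ k * K0 * V0 ^ (k - 1) * ((Q s X).card : ℝ)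
      ≤ 4 ^ k * (4 * CO * X ^ (ρ + θ + 1 - (θ / 3) / 2)) *
        ((2 * CW + CP) ^ (k - 1) * X ^ ((τ + ρ) * ((k : ℝ) - 1))) * X := by
        rw [hVp]
        have : 0 ≤ X ^ ((τ + ρ) * ((k : ℝ) - 1)) := by positivity
        gcongr
    _ = 4 ^ k * (4 * CO) * (2 * CW + CP) ^ (k - 1) *
        (X ^ (ρ + θ + 1 - (θ / 3) / 2) * X ^ ((τ + ρ) * ((k : ℝ) - 1)) * X) := by ring
    _ = 4 ^ k * (4 * CO) * (2 * CW + CP) ^ (k - 1) *
        X ^ ((ρ + θ + 1 - (θ / 3) / 2) + (τ + ρ) * ((k : ℝ) - 1) + 1) := by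
        rw [Real.rpow_add hX0, Real.rpow_add hX0, Real.rpow_one]
    _ ≤ _ := by
        apply mul_le_mul_of_nonneg_left _ (by positivity)
        exact Real.rpow_le_rpow_of_exponent_le hX1 hexp

/-- integrals of squares of differences -/
lemma int_diff_sq {f g : ℝ → ℂ} (hf : Continuous f) (hg : Continuous g) {A a b : ℝ} (hA : 0 ≤ A)
    (h1 : ∫ α in (-A)..A, ‖f α‖ ^ 2 ≤ a) (h2 : ∫ α in (-A)..A, ‖g α‖ ^ 2 ≤ b) :
    ∫ α in (-A)..A, ‖f α - g α‖ ^ 2 ≤ 2 * a + 2 * b := by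
  have i1 : IntervalIntegrable (fun α => ‖f α - g α‖ ^ 2) volume (-A) A :=
    ((hf.sub hg).norm.pow 2).intervalIntegrable _ _
  have i2 : IntervalIntegrable (fun α => 2 * ‖f α‖ ^ 2 + 2 * ‖g α‖ ^ 2) volume (-A) A :=
    (((hf.norm.pow 2).const_mul 2).add ((hg.norm.pow 2).const_mul 2)).intervalIntegrable _ _
  have i3 : IntervalIntegrable (fun α => 2 * ‖f α‖ ^ 2) volume (-A) A :=
    ((hf.norm.pow 2).const_mul 2).intervalIntegrable _ _
  have i4 : IntervalIntegrable (fun α => 2 * ‖g α‖ ^ 2) volume (-A) A :=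
    ((hg.norm.pow 2).const_mul 2).intervalIntegrable _ _
  have h3 : ∫ α in (-A)..A, ‖f α - g α‖ ^ 2 ≤ ∫ α in (-A)..A, (2 * ‖f α‖ ^ 2 + 2 * ‖g α‖ ^ 2) := by
    refine intervalIntegral.integral_mono_on (by linarith) i1 i2 fun x _ => ?_
    have := norm_sub_le (f x) (g x)
    nlinarith [norm_nonneg (f x - g x), norm_nonneg (f x), norm_nonneg (g x), sq_nonneg (‖f x‖ - ‖g x‖)]
  rw [intervalIntegral.integral_add i3 i4, intervalIntegral.integral_const_mul,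
    intervalIntegral.integral_const_mul] at h3
  linarith

/-- stage 2: shorter polynomials -/
lemma E1b (hP : S_P1) (hO : S_OPB) (hT : S_TEL) (hc : S_CTS) (hk : 1 ≤ k) {θ η : ℝ}
    (hθ0 : 0 < θ) (hθ1 : θ ≤ 1) (hη : 0 < η) (hη1 : η ≤ θ / 4) :
    ∃ C X₀ : ℝ, 0 < C ∧ ∀ (s : ℤ) (X : ℝ) (N : ℕ), s = 1 ∨ s = -1 → X₀ ≤ X → X ^ η / 2 ≤ N →
      (N : ℝ) ≤ X ^ η → 1 ≤ N →
      ∫⁻ β, ENNReal.ofReal (‖∑ q ∈ Q s X,
        (∏ j, PN s q ⌊X ^ θ⌋₊ (β j) - ∏ j, PN s q N (β j))‖ ^ 2) ∂(mS k (X ^ θ)) ≤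
        ENNReal.ofReal (C * X ^ (k * θ + 2 - η / 4)) := by
  classical
  have hk0 : (0 : ℝ) < k := by exact_mod_cast hk
  have hk1 : (1 : ℝ) ≤ k := by exact_mod_cast hk
  set ρ : ℝ := η / (8 * k) with hρ
  have hρ0 : 0 < ρ := by positivity
  obtain ⟨CO, hCO, hO⟩ := hO ρ hρ0
  obtain ⟨CP, hCP, hP⟩ := hP
  have ev2 : ∀ᶠ X : ℝ in atTop, 2 ≤ X ^ θ := (tendsto_rpow_atTop hθ0).eventually_ge_atTop _
  obtain ⟨X₀, hX₀⟩ := eventually_atTop.1 (((logA_le hθ0 hρ0).and ev2).and (eventually_ge_atTop 2))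
  refine ⟨4 ^ k * (16 * CO) * CP ^ (k - 1), X₀, by positivity, ?_⟩
  intro s X N hs hX hN hNX hN1
  obtain ⟨⟨v1, v2⟩, v3⟩ := hX₀ X hX
  have hX0 : 0 < X := by linarith
  have hX1 : 1 ≤ X := by linarith
  set A : ℝ := X ^ θ with hA
  have hAX : A ≤ X := by
    rw [hA]
    calc X ^ θ ≤ X ^ (1 : ℝ) := Real.rpow_le_rpow_of_exponent_le hX1 hθ1
      _ = X := Real.rpow_one X
  have hA0 : 0 < A := by linarith
  obtain ⟨f1, f2, f3⟩ := floor_half (show 1 ≤ A by linarith)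
  set M : ℕ := ⌊A⌋₊ with hMd
  have hXη0 : 0 < X ^ η := by positivity
  have hNA : (N : ℝ) ≤ A := by
    refine hNX.trans ?_
    rw [hA]; apply Real.rpow_le_rpow_of_exponent_le hX1; linarith
  have hN4 : X ^ η / 4 ≤ (N : ℝ) := by linarith
  have hM4 : X ^ η / 4 ≤ (M : ℝ) := by
    have : X ^ η ≤ A := by
      rw [hA]; apply Real.rpow_le_rpow_of_exponent_le hX1; linarith
    linarith
  set K0 : ℝ := 16 * CO * X ^ (ρ + θ + 1 - η / 2) with hK0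
  set V0 : ℝ := CP * X ^ (θ + ρ) with hV0
  have hK0' : 0 ≤ K0 := by positivity
  have hV0' : 0 ≤ V0 := by positivity
  have hcL : ∀ c : ℕ → ℂ, ∀ L : ℕ, Continuous fun α : ℝ => ∑ q ∈ Q s X, c q * (LL s q (pt α) - PN s q L α) :=
    fun c L => continuous_finset_sum _ fun q hq =>
      continuous_const.mul ((hc s q (Q_is hq).1).sub (PN_cont s q L))
  have hVP : ∀ L : ℕ, (L : ℝ) ≤ A → ∀ q, ∫ α in (-A)..A, ‖PN s q L α‖ ^ 2 ≤ V0 := by
    intro L hL q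
    have h2 := (hP A L (fun n => vl s q n) v2 hL (fun n => vl_le s q n)).2
    refine le_trans h2 ?_
    have a4 : X ^ (θ + ρ) = A * X ^ ρ := by rw [hA, ← Real.rpow_add hX0]
    rw [hV0, a4]
    calc CP * A * Real.log A ≤ CP * A * X ^ ρ := mul_le_mul_of_nonneg_left v1 (by positivity)
      _ = CP * (A * X ^ ρ) := by ring
  have h1 := hT k (Q s X) (fun q => PN s q M) (fun q => PN s q N) A K0 V0 hA0 hK0' hV0'
    (fun q _ => PN_cont s q M) (fun q _ => PN_cont s q N)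
    (fun c => by
      have g1 := hO s X A (θ / 6) N c hs v2 hAX (by positivity) (by linarith) hN1
      have g2 := hO s X A (θ / 6) M c hs v2 hAX (by positivity) (by linarith) f3
      have o1 := op_num (θ := θ) (ρ := ρ) hX1 (show η ≤ θ / 3 by linarith) hCO hN4
      have o2 := op_num (θ := θ) (ρ := ρ) hX1 (show η ≤ θ / 3 by linarith) hCO hM4
      have hs0 : 0 ≤ ∑ q ∈ Q s X, ‖c q‖ ^ 2 := Finset.sum_nonneg fun _ _ => by positivity
      have g3 := int_diff_sq (hcL c N) (hcL c M) hA0.le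
        (g1.trans (mul_le_mul_of_nonneg_right o1 hs0)) (g2.trans (mul_le_mul_of_nonneg_right o2 hs0))
      have e1 : ∀ α : ℝ, ∑ q ∈ Q s X, c q * (LL s q (pt α) - PN s q N α) -
          ∑ q ∈ Q s X, c q * (LL s q (pt α) - PN s q M α) = ∑ q ∈ Q s X, c q * (PN s q M α - PN s q N α) := by
        intro α
        rw [← Finset.sum_sub_distrib]
        exact Finset.sum_congr rfl fun q _ => by ring
      simp only [e1] at g3
      refine g3.trans (le_of_eq ?_)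
      rw [hK0]; ring)
    (fun q _ => hVP M f2 q) (fun q _ => hVP N hNA q)
  refine h1.trans (ENNReal.ofReal_le_ofReal ?_)
  have hcard : ((Q s X).card : ℝ) ≤ X := Q_card hX1
  have hcast : ((k - 1 : ℕ) : ℝ) = k - 1 := by
    rw [Nat.cast_sub hk]; simp
  have hVp : V0 ^ (k - 1) = CP ^ (k - 1) * X ^ ((θ + ρ) * ((k : ℝ) - 1)) := by
    rw [hV0, mul_pow, ← Real.rpow_natCast (X ^ (θ + ρ)), ← Real.rpow_mul hX0.le, hcast]
  have hρk : ρ * k = η / 8 := by rw [hρ]; field_simp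
  have hexp : (ρ + θ + 1 - η / 2) + (θ + ρ) * ((k : ℝ) - 1) + 1 ≤ k * θ + 2 - η / 4 := by
    have : (θ + ρ) * ((k : ℝ) - 1) = k * θ - θ + (ρ * k - ρ) := by ring
    rw [this, hρk]; linarith
  calc 4 ^ k * K0 * V0 ^ (k - 1) * ((Q s X).card : ℝ)
      ≤ 4 ^ k * (16 * CO * X ^ (ρ + θ + 1 - η / 2)) * (CP ^ (k - 1) * X ^ ((θ + ρ) * ((k : ℝ) - 1))) * X := by
        rw [hVp]
        gcongr
    _ = 4 ^ k * (16 * CO) * CP ^ (k - 1) *
        (X ^ (ρ + θ + 1 - η / 2) * X ^ ((θ + ρ) * ((k : ℝ) - 1)) * X) := by ring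
    _ = 4 ^ k * (16 * CO) * CP ^ (k - 1) *
        X ^ ((ρ + θ + 1 - η / 2) + (θ + ρ) * ((k : ℝ) - 1) + 1) := by
        rw [Real.rpow_add hX0, Real.rpow_add hX0, Real.rpow_one]
    _ ≤ _ := by
        apply mul_le_mul_of_nonneg_left _ (by positivity)
        exact Real.rpow_le_rpow_of_exponent_le hX1 hexp

end

end Pool.Agent.H27.T4
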