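import Pool.Agent.H27.G.R_pool_sql_team_seeded_63374d34.N879.QM.Stm2

set_option autoImplicit false

/-!
Project T4 (helper27, `MP_fed7ff_nt`): moments of quadratic Dirichlet `L`-functions of every order for almost all
shifts in `[-X^θ, X^θ]^k`, `θ ≥ 1/2 - 1/(12 k)`, all discriminants. Further statements (the others are in
`N879/QM/Stm.lean` and `N879/QM/Stm2.lean`).

The new input is Weil's bound for the correlations `∑ χ(n) χ(n + h)` over intervals shorter than the conductor, which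
gives `∫_{-A}^{A} |L(1/2 + it, χ)|² dt ≤ q^ε (A + √q)` for EVERY real primitive character modulo `q`.
-/

namespace Pool.Agent.H27.T4

open Complex Filter Topology MeasureTheory Set Pool.Agent.N879.QM
open scoped BigOperators

noncomputable section

/-- the Jacobi symbol `(u / M)` as a complex number -/
def jj (M : ℕ) (u : ℤ) : ℂ := ((jacobiSym u M : ℤ) : ℂ)

/-- MIXP: the mixed sum modulo a prime.
Proof. `∑_u e(-uw/p) χ(u) χ(u+h)`. If `w = 0`: the sum is `∑_u χ(u² + hu) = -1` (substitute `u → 1/u`).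
If `w ≠ 0`: `1 + χ(u² + hu)` is the number of `y` with `y² = u² + hu`; as `∑_u e(-uw/p) = 0` the sum equals
`∑_{(u,y) : y² = u² + hu} e(-uw/p)`. With `a = 2u + h - 2y`, `b = 2u + h + 2y`: `ab = (2u+h)² - 4y² = h²`, and
`u = (a + b - 2h)/4`. So it is `e(2hw/(4p)) ∑_{a ≠ 0} e(-w(a + h²/a)/(4p))`, a Kloosterman sum with nonzero coefficients:
`Pool.Agent.H498R2.Kl.kloosterman_units_le` (file R_seed8/H498R2/KlWeil.lean) or `kloosterman_prime` (SM_T8.lean). -/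
def S_MIXP : Prop := ∀ (p : ℕ) [Fact p.Prime] (h w : ZMod p), p ≠ 2 → h ≠ 0 →
  ‖∑ u : ZMod p, ZMod.stdAddChar (-(u * w)) *
    (((quadraticChar (ZMod p) u : ℤ) : ℂ) * ((quadraticChar (ZMod p) (u + h) : ℤ) : ℂ))‖ ≤ 2 * √(p : ℝ)

/-- MIXM: odd squarefree moduli. Induction over the prime factors with the Chinese remainder theorem
(`Pool.Agent.H442R2.KF.TaskB.char_crt` in R_seed8/H442R2/KF/Weil.lean; see there `Kl_mul`, `Kl_sf` for the same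
induction). For `p ∣ h` the trivial bound `p = √p √p`, for `p ∤ h` MIXP. -/
def S_MIXM : Prop := ∀ (M : ℕ) [NeZero M] (h : ℤ) (w : ZMod M), Odd M → Squarefree M →
  ‖∑ u : ZMod M, ZMod.stdAddChar (-(u * w)) * (jj M (u.val : ℤ) * jj M ((u.val : ℤ) + h))‖ ≤
    2 ^ M.primeFactors.card * √((M : ℝ) * (Int.gcd h M : ℝ))

/-- DEC: the structure of the real primitive characters (`level`, `oddpart` in R_seed8/H987R2/RG_CLS.lean; the function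
`f χ u = χ u` there). `ψ v = χ(n)` for an integer `n ≡ v (mod K)`, `n ≡ 1 (mod M)`. -/
def S_DEC : Prop := ∀ (s : ℤ) (q : ℕ), Is s q → ∃ (K M : ℕ) (ψ : ZMod K → ℂ), q = K * M ∧ K ∣ 8 ∧ Odd M ∧
  Squarefree M ∧ Nat.Coprime K M ∧ (∀ v, ‖ψ v‖ ≤ 1) ∧ ∀ n : ℤ, ch s q (n : ZMod q) = ψ (n : ZMod K) * jj M n

/-- MIXQ: the mixed sum modulo the conductor: DEC, the Chinese remainder theorem, MIXM, and the trivial bound `K ≤ 8` for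
the factor modulo `K`. -/
def S_MIXQ : Prop := ∀ (s : ℤ) (q : ℕ) [NeZero q] (h w : ZMod q), Is s q →
  ‖∑ u : ZMod q, ZMod.stdAddChar (-(u * w)) * (ch s q u * ch s q (u + h))‖ ≤
    8 * 2 ^ q.primeFactors.card * √((q : ℝ) * (Nat.gcd h.val q : ℝ))

/-- INC: incomplete correlations. From MIXQ and `Pool.Agent.H442R2.KF.Inc.completion` (R_seed8/H442R2/KF/Inc.lean) with
`R = 1`, `H = t ≤ q`; `2 ^ ω(q)` and `log q` are at most `C q^(ε/2)`. (For `h` a multiple of `q` the gcd is `q`.) -/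
def S_INC : Prop := ∀ ε : ℝ, 0 < ε → ∃ C : ℝ, 0 < C ∧ ∀ (s : ℤ) (q h x t : ℕ), Is s q → t ≤ q →
  ‖∑ n ∈ Finset.Ioc x (x + t), vl s q n * vl s q (n + h)‖ ≤ C * (q : ℝ) ^ ε * √((q : ℝ) * (Nat.gcd h q : ℝ))

/-- SKW: dyadic pieces. From `S_BLK` with `a n = vl s q n`, `H = ⌈K/A⌉` (so `K/A ≤ H ≤ 2K/A`): for `t ≤ H`
`∑_x ‖∑_{n ∈ (x,x+t] ∩ (K,2K]} χ(n)‖² = ∑_{n,n' ∈ (K,2K]} χ(n) χ(n') #{x : x < min(n,n'), max(n,n') ≤ x+t}
  ≤ t K + 2 t ∑_{1 ≤ h < t} ‖∑_{n ∈ (K, 2K-h]} χ(n) χ(n+h)‖` (values are real) `≤ t K + 2 t C q^ε √q ∑_{h<t} √gcd(h,q)`,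
and `∑_{1 ≤ h < t} √gcd(h,q) ≤ ∑_{d ∣ q} √d (t/d) ≤ t d(q)`. So `B = C q^(2ε) (H K + H² √q)` and the result is
`C A/(KH) B ≤ C q^(2ε) (A + A (H/K) √q) ≤ C q^(2ε) (A + 2 √q)`. -/
def S_SKW : Prop := ∀ ε : ℝ, 0 < ε → ∃ C : ℝ, 0 < C ∧ ∀ (s : ℤ) (q : ℕ) (A : ℝ) (K : ℕ), Is s q → 2 ≤ A → A ≤ K →
  K ≤ q → ∫ α in (-A)..A, ‖SK s q K α‖ ^ 2 ≤ C * (q : ℝ) ^ ε * (A + √(q : ℝ))

/-- VW: the second moment of every `L`-function. As `Vl.lean` or `Mb.lean`: `LL = PN Z + O(q (1+A)/√Z)` (`S_AFS`) with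
`Z = 2^j ⌊A⌋` or so of size `q^10 A^10`; `PN ⌊A⌋` by `S_P1`; dyadic pieces `A ≤ K ≤ q` by SKW, `K ≥ q` by `S_BIG1P` (or
`S_BIG1` if `q ≤ A`); Cauchy–Schwarz over `O(log (q A))` pieces. For `q ≤ A` it follows from `S_VL`. -/
def S_VW : Prop := ∀ ε : ℝ, 0 < ε → ∃ C : ℝ, 0 < C ∧ ∀ (s : ℤ) (q : ℕ) (A : ℝ), Is s q → 2 ≤ A →
  ∫ α in (-A)..A, ‖LL s q (pt α)‖ ^ 2 ≤ C * ((q : ℝ) * A) ^ ε * (A + √(q : ℝ))

/-- the theorem for `θ ≤ 1` -/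
def S_MAINW : Prop := ∀ (k : ℕ) (s : ℤ) (θ : ℝ), 1 ≤ k → s = 1 ∨ s = -1 → 1 / 2 - 1 / (12 * k) ≤ θ → θ ≤ 1 →
  ∃ δ X₀ : ℝ, 0 < δ ∧ ∀ X : ℝ, X₀ ≤ X →
  mS k (X ^ θ) {β | X ^ (1 - δ) < ‖(∑ q ∈ Q s X, ∏ j, LL s q (pt (β j))) - ((c0 * X : ℝ) : ℂ) * MT (im β)‖} ≤
    ENNReal.ofReal (X ^ (k * θ - δ))

end

end Pool.Agent.H27.T4
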